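import Pool.Agent.P.MP_f57657_co.W.Crs

/-! Choice of the parameters and the limit. -/

open Finset

namespace Pool.Agent.P.MP_f57657_co

theorem exp_neg_le {x y : ℝ} (hy : 0 < y) (h : 1 / y ≤ x) : Real.exp (-x) ≤ y := by
  rw [Real.exp_neg, inv_le_comm₀ (Real.exp_pos _) hy, ← one_div]
  linarith [Real.add_one_le_exp x]

/-- No coarse conjugation gives a mate of the core of a component. -/
def RigidC {V : Type*} [Finite V] (G : SimpleGraph V) (θ m : ℝ) : Prop :=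
  ∀ (c : G.ConnectedComponent) (H : SimpleGraph (core2 G c.supp)),
    IsCoarse (G.induce (core2 G c.supp)) H θ m → Nonempty (H ≃g G.induce (core2 G c.supp))

theorem rare_all {ε θ : ℝ} (hε : 0 < ε) (hθ : 0 < θ) :
    Rare fun n _ ω => ¬RigidC (gr ω) θ ((1 - 3 * ε) * n) := by
  obtain ⟨b, hb⟩ : ∃ b, b = ⌊1 / θ ^ 2⌋₊ := ⟨_, rfl⟩
  obtain ⟨μ, u0, u1⟩ : ∃ μ : ℝ, 0 < μ ∧ 4 * μ * (b * b) ≤ ε :=
    ⟨ε / (4 * (b * b + 1)), by positivity, by
      rw [mul_div_assoc', div_mul_eq_mul_div, div_le_iff₀ (by positivity)]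
      nlinarith⟩
  obtain ⟨δ, C₀, d0, r0⟩ := Pr_bad (a := 2) one_lt_two
  have r0' : Rare fun n _ ω => ¬Rigid (gr ω) (δ * n) := ⟨2, C₀, fun n p a _ c => r0 n p a c⟩
  obtain ⟨β, hβ⟩ : ∃ β, β = ε / 7 := ⟨_, rfl⟩
  have b0 : 0 < β := by rw [hβ]; positivity
  obtain ⟨ρ, s0, rS⟩ := rare_S b0
  obtain ⟨q, q1, rG⟩ := rare_G hε
  obtain ⟨L, l0, l1⟩ : ∃ L : ℕ, 0 < L ∧ 1 / (L : ℝ) ≤ ρ / 2 :=
    ⟨⌈2 / ρ⌉₊, Nat.ceil_pos.2 (by positivity), by
      rw [one_div_le (by exact_mod_cast Nat.ceil_pos.2 (by positivity)) (by positivity), one_div_div]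
      exact Nat.le_ceil _⟩
  obtain ⟨Q, q2, l2⟩ : ∃ Q : ℕ, q ^ 2 ≤ Q ∧ L ≤ Q := ⟨_, le_max_left _ _, le_max_right _ _⟩
  have q3 : (1 : ℝ) ≤ Q := by exact_mod_cast l0.trans_le l2
  obtain ⟨K₂, k2⟩ : ∃ K₂ : ℝ, K₂ = 16 ^ Q * (8 * Q) + 1 := ⟨_, rfl⟩
  obtain ⟨K, k1⟩ : ∃ K : ℝ, K = 16 ^ L * (8 / ρ) + (K₂ + 1) * Q := ⟨_, rfl⟩
  have k3 : 1 ≤ K := by
    have a1 : 0 ≤ K₂ := by rw [k2]; positivity
    have a2 : (0 : ℝ) ≤ 16 ^ L * (8 / ρ) := by positivity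
    nlinarith
  obtain ⟨η₁, e0, rG⟩ := rG (Q ^ 2)
  obtain ⟨η, e1, e2, e3⟩ : ∃ η, 0 < η ∧ 6 * η ≤ η₁ ∧ 3 * η ≤ β :=
    ⟨min (η₁ / 6) (β / 3), by positivity, by linarith [min_le_left (η₁ / 6) (β / 3)],
      by linarith [min_le_right (η₁ / 6) (β / 3)]⟩
  obtain ⟨γ, g0, g1, rN⟩ := rare_N e1
  obtain ⟨η', e4, rU⟩ := rare_U g0 (K + γ)
  obtain ⟨η₀, e5, e6, e7, e8⟩ : ∃ η₀, 0 < η₀ ∧ η₀ ≤ η ∧ η₀ ≤ η' / 2 ∧ η₀ ≤ δ / 3 :=
    ⟨min η (min (η' / 2) (δ / 3)), by positivity, min_le_left _ _,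
      (min_le_right _ _).trans (min_le_left _ _), (min_le_right _ _).trans (min_le_right _ _)⟩
  refine (r0'.or ((rare_T e5).or (rU.or (rN.or (rS.or (rG.or (rare_B u0 b))))))).mono
    ((K + 1) / η₀ + 1 / β + q ^ 3 / η₀ + 1 / ρ / β + 1 / μ) fun n p ω hC h0 h1 h => ?_
  by_contra hc
  simp only [not_or, not_not] at hc
  obtain ⟨c1, c2, c3, c4, c5, c6, c7⟩ := hc
  have n0 : (0 : ℝ) ≤ n := n.cast_nonneg
  have hn : (Fintype.card (Fin n) : ℝ) = n := by simp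
  have a0 : n * p ≤ n := mul_le_of_le_one_right n0 (by linarith)
  have a1 : 0 ≤ (K + 1) / η₀ := by positivity
  have a2 : 0 ≤ 1 / β := by positivity
  have a3 : 0 ≤ q ^ 3 / η₀ := by positivity
  have a4 : 0 ≤ 1 / ρ / β := by positivity
  have a5 : 0 ≤ 1 / μ := by positivity
  have a6 : (⌈μ * n⌉₊ : ℝ) ≤ 2 * μ * n := by
    have := (div_le_iff₀' u0).1 (show 1 / μ ≤ n by linarith)
    linarith [Nat.ceil_lt_add_one (show 0 ≤ μ * n by positivity)]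
  have hs : ∀ Y : Finset (Fin n), Y.card * p ≤ K + γ → Y.card ≤ η₀ * Fintype.card (Fin n) := by
    intro Y hY
    have := (div_le_iff₀' e5).1 (show (K + 1) / η₀ ≤ n * p by linarith)
    rw [hn]
    exact le_of_mul_le_mul_right (by linarith) h0
  refine h fun c H hH => rigid_step (ε := ε) (q := q) (core_core2 c) (hn ▸ c1 c) c2 (by linarith)
    (by linarith) (hn ▸ (div_le_iff₀' e5).1 (by linarith)) hθ (hb ▸ c7) (by
      rw [← hb, hn]
      push_cast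
      nlinarith [mul_le_mul_of_nonneg_right a6 (mul_self_nonneg (b : ℝ)),
        mul_le_mul_of_nonneg_right u1 n0]) (fun M _ _ ψ D T m1 m2 m3 m4 => ?_) (hn ▸ hH)
  obtain ⟨E, N, m5, m6⟩ := core h0 h1 m1 m2 (K₂ := K₂) (τ := 8 * Q) (τ' := 8 / ρ) c3 c4 c5
    (fun a => c6 (a.mono e2)) g0.le (g1.trans k3) (m3.trans (by gcongr))
    (fun Y hY => by nlinarith [hs Y hY])
    (fun Y hY => (hs Y (by linarith)).trans (by gcongr)) m4 (by linarith) e3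
    (hn ▸ (div_le_iff₀' b0).1 (by linarith))
    (fun d hd => (one_sub_pow_le (by linarith) d).trans (exp_neg_le s0 (by
      have := (div_le_iff₀' b0).1 (show 1 / ρ / β ≤ n * p by linarith)
      linarith [mul_le_mul_of_nonneg_right (hn ▸ hd) h0.le]))) q1 q2 l0 l2 (by positivity) (by linarith)
    (exp_neg_le (by positivity) (by rw [one_div_div]; linarith)) (by positivity)
    (by
      have := exp_neg_le (x := 8 / ρ / 4) (half_pos s0) (by rw [one_div_div]; ring_nf; rfl)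
      linarith) k1.ge
  exact ⟨E, N, hs E (by linarith), m6⟩

open Filter Topology MeasureTheory in
theorem main_full {ε θ : ℝ} (hε : 0 < ε) (hθ : 0 < θ) : ∃ C : ℝ, 0 < C ∧ ∀ p : ℕ → unitInterval,
    (∀ᶠ n : ℕ in atTop, C ≤ n * (p n : ℝ) ∧ (p n : ℝ) ≤ 1 / 2) →
    Tendsto (fun n : ℕ => (SimpleGraph.binomialRandom (Fin n) (p n)).real
      {G | RigidC G θ ((1 - ε) * n)}) atTop (𝓝 1) := by
  obtain ⟨C, M, h1⟩ := rare_all (div_pos hε three_pos) hθ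
  rw [mul_div_cancel₀ _ three_ne_zero] at h1
  refine ⟨max C 1, lt_max_of_lt_right one_pos, fun p hp => ?_⟩
  refine tendsto_of_tendsto_of_tendsto_of_le_of_le' (g := fun n : ℕ => 1 - M / n)
    (by simpa using (tendsto_const_div_atTop_nhds_zero_nat M).const_sub 1) tendsto_const_nhds ?_
    (Eventually.of_forall fun n => measureReal_le_one)
  filter_upwards [hp] with n hn
  have h2 := (real_le_Pr (p n) {G | RigidC G θ ((1 - ε) * n)}ᶜ).trans (h1 n _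
    ((le_max_left _ _).trans hn.1) (pos_of_mul_pos_left (show 0 < (p n : ℝ) * n by
      linarith [le_max_right C 1, hn.1]) n.cast_nonneg) hn.2)
  have h3 := measureReal_union_le (μ := SimpleGraph.binomialRandom (Fin n) (p n))
    {G | RigidC G θ ((1 - ε) * n)} {G | RigidC G θ ((1 - ε) * n)}ᶜ
  rw [Set.union_compl_self, probReal_univ] at h3
  linarith

end Pool.Agent.P.MP_f57657_co
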