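import Mathlib

/-! Finite quotients of finitely generated modules over integer polynomials. -/

open Polynomial Submodule

namespace Pool.Agent.P.MP_f57657_co

theorem finite_quot (m : Ideal ℤ[X]) [m.IsMaximal] : Finite (ℤ[X] ⧸ m) := by
  let := Ideal.Quotient.field m
  have : IsJacobsonRing ℤ := isJacobsonRing_iff_prime_eq.2 fun P hP => by
    by_cases h : P = ⊥
    · refine h ▸ eq_bot_iff.2 fun x hx => ?_
      rcases Int.isUnit_iff.1 (Ideal.mem_jacobson_bot.1 hx x) with e | e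
      · simpa using e
      · nlinarith [mul_self_nonneg x]
    · have := hP.isMaximal h
      exact Ideal.jacobson_eq_self_of_isMaximal
  have := finite_of_finite_type_of_isJacobsonRing ℤ (ℤ[X] ⧸ m)
  have h : ¬Function.Injective (algebraMap ℤ (ℤ[X] ⧸ m)) := fun h =>
    Int.not_isField (isField_of_isIntegral_of_isField h (Field.toIsField _))
  rw [injective_iff_map_eq_zero, not_forall] at h
  obtain ⟨a, ha⟩ := h
  obtain ⟨h1, h2⟩ := Classical.not_imp.1 ha
  refine Module.finite_of_fg_torsion _ fun x => ⟨⟨a, mem_nonZeroDivisors_of_ne_zero h2⟩, ?_⟩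
  change a • x = 0
  rw [Algebra.smul_def, h1, zero_mul]

theorem finite_simple (G : Type*) [AddCommGroup G] [Module ℤ[X] G] [h : IsSimpleModule ℤ[X] G] :
    Finite G := by
  obtain ⟨m, _, ⟨e⟩⟩ := isSimpleModule_iff_quot_maximal.1 h
  have := finite_quot m
  exact Finite.of_equiv _ e.toEquiv.symm

theorem smul_quot {m : Ideal ℤ[X]} (r : ℤ[X]) (x : ℤ[X] ⧸ m) :
    r • x = Ideal.Quotient.mk m r * x := by
  obtain ⟨y, rfl⟩ := Ideal.Quotient.mk_surjective x
  rfl

theorem mem_of_smul_one {m : Ideal ℤ[X]} {r : ℤ[X]} (h : r • (1 : ℤ[X] ⧸ m) = 0) : r ∈ m := by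
  rwa [smul_quot, mul_one, Ideal.Quotient.eq_zero_iff_mem] at h

theorem alg {N : Type*} [AddCommGroup N] [Module ℤ[X] N] [Module.Finite ℤ[X] N] {q : ℕ}
    (hq : 1 ≤ q) (h : ¬(Finite N ∧ Nat.card N ≤ q)) :
    ∃ N' : Submodule ℤ[X] N, Finite (N ⧸ N') ∧ q < Nat.card (N ⧸ N') ∧
      (Nat.card (N ⧸ N') ≤ q ^ 2 ∨ IsSimpleModule ℤ[X] (N ⧸ N')) := by
  let s := {c | c ≤ q ∧ ∃ N' : Submodule ℤ[X] N, Finite (N ⧸ N') ∧ Nat.card (N ⧸ N') = c}
  have s1 : BddAbove s := ⟨q, fun c hc => hc.1⟩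
  obtain ⟨a1, N0, a2, a3⟩ := Nat.sSup_mem (s := s)
    ⟨1, hq, ⊤, inferInstance, Nat.card_unique⟩ s1
  have a4 : ⊥ < N0 := bot_lt_iff_ne_bot.2 fun e => h
    ⟨Finite.of_equiv _ (quotEquivOfEqBot _ e).toEquiv, by
      rwa [← Nat.card_congr (quotEquivOfEqBot _ e).toEquiv, a3]⟩
  obtain ⟨N1, -, b1⟩ := exists_le_covBy_of_lt a4
  have b2 := (covBy_iff_quot_is_simple b1.le).1 b1
  have b3 := finite_simple (N0 ⧸ comap N0.subtype N1)
  have b4 : Nat.card (N0 ⧸ comap N0.subtype N1) * Nat.card (N ⧸ N0) = Nat.card (N ⧸ N1) :=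
    AddSubgroup.relIndex_mul_index (H := N1.toAddSubgroup) (K := N0.toAddSubgroup) b1.le
  have b5 := IsSimpleModule.nontrivial ℤ[X] (N0 ⧸ comap N0.subtype N1)
  have b6 : 1 < Nat.card (N0 ⧸ comap N0.subtype N1) := Finite.one_lt_card
  have b7 : 0 < Nat.card (N ⧸ N0) := Nat.card_pos
  have b8 : Finite (N ⧸ N1) := Nat.finite_of_card_ne_zero (by rw [← b4]; positivity)
  by_cases hc : Nat.card (N0 ⧸ comap N0.subtype N1) ≤ q
  · refine ⟨N1, b8, lt_of_not_ge fun e => ?_, Or.inl ?_⟩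
    · have := le_csSup s1 ⟨e, N1, b8, rfl⟩
      nlinarith
    · rw [← b4, sq, a3]
      exact Nat.mul_le_mul hc a1
  obtain ⟨m, hm, ⟨e⟩⟩ := isSimpleModule_iff_quot_maximal.1 b2
  rcases eq_top_or_exists_le_coatom (m • (⊤ : Submodule ℤ[X] N)) with c1 | ⟨N', c1, c2⟩
  · obtain ⟨r, r1, r2⟩ := exists_sub_one_mem_and_smul_eq_zero_of_fg_of_le_smul m ⊤
      Module.Finite.fg_top c1.ge
    obtain ⟨x, hx⟩ := (comap N0.subtype N1).mkQ_surjective (e.symm 1)
    have r3 : r • x = 0 := Subtype.ext (r2 x trivial)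
    have r4 := congrArg (fun z => e ((comap N0.subtype N1).mkQ z)) r3
    simp only [map_smul, hx, e.apply_symm_apply, map_zero] at r4
    have r5 : r ∈ m := mem_of_smul_one r4
    exact absurd ((Ideal.eq_top_iff_one _).2 (by simpa using sub_mem r5 r1)) hm.ne_top
  · have d1 := isSimpleModule_iff_isCoatom.2 c1
    obtain ⟨m', hm', ⟨e'⟩⟩ := isSimpleModule_iff_quot_maximal.1 d1
    obtain rfl : m = m' := hm.eq_of_le hm'.ne_top fun r hr => by
      obtain ⟨x, hx⟩ := N'.mkQ_surjective (e'.symm 1)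
      have r4 : e' (N'.mkQ (r • x)) = 0 := by
        rw [mkQ_apply, (Quotient.mk_eq_zero _).2 (c2 (smul_mem_smul hr trivial)), map_zero]
      simp only [map_smul, hx, e'.apply_symm_apply] at r4
      exact mem_of_smul_one r4
    refine ⟨N', finite_simple _, ?_, Or.inr d1⟩
    rw [Nat.card_congr (e'.trans e.symm).toEquiv]
    exact not_le.1 hc

/-- An additive subgroup stable under `X` is a submodule. -/
def toSub {M : Type*} [AddCommGroup M] [Module ℤ[X] M] (H : AddSubgroup M)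
    (h : ∀ x ∈ H, (X : ℤ[X]) • x ∈ H) : Submodule ℤ[X] M where
  toAddSubmonoid := H.toAddSubmonoid
  smul_mem' f x hx := by
    change f • x ∈ H
    induction f using Polynomial.induction_on with
    | C a => rw [eq_intCast, Int.cast_smul_eq_zsmul]; exact zsmul_mem hx a
    | add f g a b => rw [add_smul]; exact add_mem a b
    | monomial n a b => rw [pow_succ', mul_left_comm, mul_smul]; exact h _ b

end Pool.Agent.P.MP_f57657_co
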