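import Pool.Agent.P.MP_f57657_co.W.Ev

/-! Many small blocks, no two of them joined by exactly one edge. -/

open Finset

namespace Pool.Agent.P.MP_f57657_co

variable {V : Type*} [Fintype V] [DecidableEq V] {p : ℝ}

/-- The pairs between two sets. -/
def cross (A B : Finset V) : Finset (Sym2 V) := (A ×ˢ B).image fun x => s(x.1, x.2)

omit [Fintype V] in
theorem mem_cross {A B : Finset V} {e : Sym2 V} :
    e ∈ cross A B ↔ ∃ a ∈ A, ∃ b ∈ B, s(a, b) = e := by
  simp [cross, and_assoc]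

/-- Two families of `m` disjoint blocks of size at most `b`. -/
structure Blocks (b : ℕ) {m : ℕ} (A B : Fin m → Finset V) : Prop where
  ne : ∀ i, (A i).Nonempty ∧ (B i).Nonempty
  le : ∀ i, (A i).card ≤ b ∧ (B i).card ≤ b
  dA : ∀ i j v, v ∈ A i → v ∈ A j → i = j
  dB : ∀ i j v, v ∈ B i → v ∈ B j → i = j
  dAB : ∀ i j v, v ∈ A i → v ∉ B j

/-- No two blocks are joined by exactly one edge. -/
def EvB' (b m : ℕ) (ω : Sym2 V → Bool) : Prop :=
  ∃ A B : Fin m → Finset V, Blocks b A B ∧ ∀ i j, nb (cross (A i) (B j)) ω ≠ 1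

/-- Two large sets with few edges between them. -/
def EvE (μ : ℝ) (K : ℕ) (ω : Sym2 V → Bool) : Prop :=
  ∃ Y Z : Finset V, (μ * Fintype.card V ≤ Y.card ∧ μ * Fintype.card V ≤ Z.card ∧ ∀ t ∈ Z, t ∉ Y) ∧
    ∑ t ∈ Z, (row ω Y t).card ≤ K * Fintype.card V

theorem rare_E {μ : ℝ} (hμ : 0 < μ) (K : ℕ) : Rare fun n _ ω => EvE (V := Fin n) μ K ω := by
  refine Rare.of_exp (2 * (K + 3) / μ ^ 2) 1 1 one_pos.le one_pos fun n p a b c => ?_
  have hs := card_sets (V := Fin n)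
  have p1 : p ≤ 1 := by linarith
  have n0 : (0 : ℝ) ≤ n := n.cast_nonneg
  unfold EvE
  rw [Fintype.card_fin] at hs ⊢
  refine (Pr_two b.le p1 univ univ (fun Y Z ω => (μ * n ≤ Y.card ∧ μ * n ≤ Z.card ∧
    ∀ t ∈ Z, t ∉ Y) ∧ ∑ t ∈ Z, (row ω Y t).card ≤ K * n) (c := Real.exp (-(3 * n)))
    (Real.exp_pos _).le (fun ω ⟨Y, Z, h⟩ => ⟨Y, mem_univ _, Z, mem_univ _, h⟩)
    (fun Y _ Z _ => Pr_if b.le p1 (Real.exp_pos _).le fun ⟨h1, h2, h3⟩ => ?_) hs hs).trans
    (le_of_eq ?_)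
  · rw [← Real.exp_add, ← Real.exp_add, one_mul]
    congr 1
    ring
  refine (Pr_le b.le p1 (f := fun ω => 2 ^ (K * n) * ∏ t ∈ Z, (1 / 2) ^ (row ω Y t).card)
    (fun ω => by positivity) fun ω h => ?_).trans ((rows_peel b.le p1 h3 (fun _ => 2 ^ (K * n))
      (fun _ a => (1 / 2) ^ a.card) (c := Real.exp (-(Y.card * (p / 2)))) (Real.exp_pos _).le
      (fun _ => by positivity) (fun _ _ => by positivity) (fun _ _ _ _ => rfl) (fun _ _ _ _ => rfl)
      fun t _ _ => ?_).trans ?_)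
  · rw [prod_pow_eq_pow_sum, one_div, inv_pow, ← div_eq_mul_inv, one_le_div (by positivity)]
    exact pow_le_pow_right₀ one_le_two h
  · rw [Ex_row Y t fun a => (1 / 2) ^ a.card, rE_pow, show p * (1 / 2) + (1 - p) = 1 - p / 2 by ring]
    exact one_sub_pow_le (by linarith) _
  · have a1 := one_add_pow_le (b := 1) (by norm_num) (K * n)
    rw [one_add_one_eq_two, mul_one] at a1
    rw [Ex_const, ← Real.exp_nat_mul]
    refine (mul_le_mul_of_nonneg_left a1 (Real.exp_pos _).le).trans ?_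
    rw [← Real.exp_add, Real.exp_le_exp]
    have a2 := mul_le_mul h2 h1 (by positivity) (by positivity)
    have a3 := mul_le_mul_of_nonneg_left ((div_le_iff₀ (by positivity)).1 a) n0
    push_cast
    nlinarith

theorem Ex_blk (h0 : 0 < p) (h1 : p ≤ 1 / 2) {ι : Type*} [Fintype ι] [DecidableEq ι] {D : Finset ι}
    {d : ℕ} (hD : D.Nonempty) (hd : D.card ≤ d) {z : ℝ} (hz : 1 ≤ z)
    (hz' : (z - 1) * (2 * d ^ 2 * 2 ^ d * p) ≤ 1) :
    Ex p (fun ω => if nb D ω = 0 then 1 else if nb D ω = 1 then 0 else z) ≤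
      Real.exp (-(p / (2 * 2 ^ d))) := by
  have e1 : ∀ N : ℕ, (if N = 0 then 1 else if N = 1 then 0 else z) =
      1 - N * (0 : ℝ) ^ (N - 1) + (z - 1) * (1 - 0 ^ N - N * 0 ^ (N - 1)) := by
    intro N
    rcases N with _ | _ | N <;> simp
  simp only [e1]
  rw [Ex_add, Ex_mul, Ex_sub, Ex_sub, Ex_sub, Ex_const, Ex_nb_mul, Ex_pow, mul_zero, add_zero]
  have a0 : (1 : ℝ) ≤ D.card := by exact_mod_cast hD.card_pos
  have a1 : (D.card : ℝ) ≤ d := by exact_mod_cast hd
  have a2 := one_add_mul_le_pow (show -2 ≤ -p by linarith) D.card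
  rw [← sub_eq_add_neg] at a2
  have a3 : (1 - p) ^ D.card ≤ (1 - p) ^ (D.card - 1) :=
    pow_le_pow_of_le_one (by linarith) (by linarith) (Nat.sub_le _ _)
  have a4 : 1 / 2 ^ d ≤ (1 - p) ^ (D.card - 1) := by
    rw [← one_div_pow]
    exact (pow_le_pow_of_le_one (by norm_num) (by norm_num) (by omega)).trans
      (pow_le_pow_left₀ (by norm_num) (by linarith) _)
  have a5 : 1 - (1 - p) ^ D.card - D.card * (p * (1 - p) ^ (D.card - 1)) ≤ (d * p) ^ 2 := by
    have b1 := mul_le_mul_of_nonneg_left (a2.trans a3) (show 0 ≤ D.card * p by positivity)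
    have b2 : (D.card * p) ^ 2 ≤ (d * p) ^ 2 := by gcongr
    nlinarith
  have a6 : p * (1 / 2 ^ d) ≤ D.card * (p * (1 - p) ^ (D.card - 1)) :=
    (mul_le_mul_of_nonneg_left a4 h0.le).trans (le_mul_of_one_le_left (by
      have : 0 ≤ 1 - p := by linarith
      positivity) a0)
  have a7 : (z - 1) * (d * p) ^ 2 ≤ p / (2 * 2 ^ d) := by
    rw [le_div_iff₀ (by positivity)]
    nlinarith
  have a8 := mul_le_mul_of_nonneg_left a5 (sub_nonneg.2 hz)
  have a9 : p * (1 / 2 ^ d) = 2 * (p / (2 * 2 ^ d)) := by field_simp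
  linarith [Real.add_one_le_exp (-(p / (2 * 2 ^ d)))]

theorem nb_mix_self {ι : Type*} [DecidableEq ι] (D : Finset ι) (ω ω' : ι → Bool) :
    nb D (mix D ω ω') = nb D ω' := by
  rw [nb, nb, filter_congr fun e he => by rw [mix, if_pos he]]

theorem nb_mix_ne {ι : Type*} [DecidableEq ι] {D D' : Finset ι} (h : ∀ e ∈ D, e ∉ D')
    (ω ω' : ι → Bool) : nb D (mix D' ω ω') = nb D ω := by
  rw [nb, nb, filter_congr fun e he => by rw [mix, if_neg (h e he)]]

theorem Pr_blk (h0 : 0 < p) (h1 : p ≤ 1 / 2) {b m : ℕ} {A B : Fin m → Finset V} (h : Blocks b A B)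
    {z : ℝ} (hz : 1 ≤ z) (hz' : (z - 1) * (2 * (b * b : ℕ) ^ 2 * 2 ^ (b * b) * p) ≤ 1) (R : ℕ) :
    Pr p (fun ω => (∀ i j, nb (cross (A i) (B j)) ω ≠ 1) ∧
      R ≤ (univ.filter fun x : Fin m × Fin m => nb (cross (A x.1) (B x.2)) ω ≠ 0).card) ≤
      (1 / z) ^ R * Real.exp (-(m ^ 2 * (p / (2 * 2 ^ (b * b))))) := by
  have p1 : p ≤ 1 := by linarith
  have z0 : 0 < z := by linarith
  let g : Fin m × Fin m → (Sym2 V → Bool) → ℝ := fun x ω => if nb (cross (A x.1) (B x.2)) ω = 0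
    then 1 else if nb (cross (A x.1) (B x.2)) ω = 1 then 0 else z
  have g0 : ∀ x ω, 0 ≤ g x ω := fun x ω => by simp only [g]; split_ifs <;> linarith
  refine (Pr_le h0.le p1 (f := fun ω => (1 / z) ^ R * ∏ x, g x ω)
    (fun ω => mul_nonneg (by positivity) (prod_nonneg fun x _ => g0 x ω)) fun ω h => ?_).trans
    ((peel h0.le p1 univ (fun x => cross (A x.1) (B x.2)) (fun _ => (1 / z) ^ R) g
      (c := Real.exp (-(p / (2 * 2 ^ (b * b))))) (Real.exp_pos _).le (fun _ => by positivity) g0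
      (fun _ _ _ _ => rfl) (fun x _ y _ hxy ω ω' => ?_) fun x _ ω => ?_).trans (le_of_eq ?_))
  · rw [prod_congr rfl (g := fun x => if nb (cross (A x.1) (B x.2)) ω ≠ 0 then z else 1)
      fun x _ => by simp only [g, if_neg (h.1 _ _), ne_eq, ite_not], prod_ite, prod_const,
      prod_const_one, mul_one, one_div, inv_pow, ← div_eq_inv_mul, one_le_div (by positivity)]
    exact pow_le_pow_right₀ hz h.2
  · simp only [g]
    rw [nb_mix_ne]
    intro e h1 h2
    obtain ⟨a, a1, c, c1, rfl⟩ := mem_cross.1 h1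
    obtain ⟨a', a2, c', c2, e⟩ := mem_cross.1 h2
    rcases Sym2.eq_iff.1 e with ⟨rfl, rfl⟩ | ⟨rfl, rfl⟩
    · exact hxy (Prod.ext (h.dA _ _ _ a1 a2) (h.dB _ _ _ c1 c2))
    · exact h.dAB _ _ _ a1 c2
  · simp only [g, nb_mix_self]
    exact Ex_blk h0 h1 (((h.ne _).1.product (h.ne _).2).image _) (card_image_le.trans
      ((card_product _ _).trans_le (Nat.mul_le_mul (h.le _).1 (h.le _).2))) hz hz'
  · rw [Ex_const, ← Real.exp_nat_mul, mul_comm]
    simp [sq]

theorem blk_num {c C l n : ℝ} {K : ℕ} (hc : 0 < c) (hC : 0 ≤ C) (hl : 0 ≤ l) (hn : 0 < n) :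
    (C * (l / n)) ^ K * Real.exp (-(c * l)) ≤ (C / c) ^ K * K.factorial / n ^ K := by
  have a1 := Real.pow_div_factorial_le_exp (c * l) (by positivity) K
  rw [div_le_iff₀ (by positivity)] at a1
  rw [Real.exp_neg, ← div_eq_mul_inv, div_le_div_iff₀ (Real.exp_pos _) (by positivity),
    ← mul_pow, show C * (l / n) * n = C / c * (c * l) by field_simp, mul_pow, mul_assoc,
    mul_comm _ (Real.exp _)]
  gcongr

theorem rare_B {μ : ℝ} (hμ : 0 < μ) (b : ℕ) :
    Rare fun n _ ω => EvB' (V := Fin n) b ⌈μ * n⌉₊ ω := by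
  classical
  obtain ⟨C, hC⟩ : ∃ C : ℝ, C = 2 * (b * b : ℕ) ^ 2 * 2 ^ (b * b) + 1 := ⟨_, rfl⟩
  obtain ⟨c, hc⟩ : ∃ c : ℝ, c = μ ^ 2 / (2 * 2 ^ (b * b)) := ⟨_, rfl⟩
  have C0 : 0 < C := by rw [hC]; positivity
  have c0 : 0 < c := by rw [hc]; positivity
  obtain ⟨M, hM⟩ : ∃ M : ℝ, M = (C / c) ^ (2 * b + 1) * (2 * b + 1).factorial := ⟨_, rfl⟩
  let sm : ∀ n : ℕ, Finset (Fin ⌈μ * n⌉₊ → Finset (Fin n)) := fun n =>
    Fintype.piFinset fun _ => univ.filter fun R => R.card ≤ b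
  refine ((rare_E hμ (2 * b + 1)).or (Rare.of_exp (E := fun n _ ω => ∃ A ∈ sm n, ∃ B ∈ sm n,
    Blocks b A B ∧ (∀ i j, nb (cross (A i) (B j)) ω ≠ 1) ∧ (2 * b + 1) * n ≤
      (univ.filter fun x : Fin _ × Fin _ => nb (cross (A x.1) (B x.2)) ω ≠ 0).card)
    (Real.exp 3 * M + 1) 1 1 one_pos.le one_pos fun n p a h0 h1 => ?_)).mono 0 ?_
  · have p1 : p ≤ 1 := by linarith
    have M0 : 0 ≤ M := by rw [hM]; positivity
    have a0 : Real.exp 3 * M + 1 ≤ n := a.trans (mul_le_of_le_one_right n.cast_nonneg p1)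
    have n1 : (1 : ℝ) ≤ n := le_trans (le_add_of_nonneg_left (by positivity)) a0
    have n0 : (0 : ℝ) < n := by linarith
    by_cases hm : n < ⌈μ * n⌉₊
    · rw [Pr_false]
      · positivity
      rintro ω ⟨A, -, B, -, h, -⟩
      choose x hx using fun i => (h.ne i).1
      simpa [hm.not_ge] using Fintype.card_le_of_injective x
        fun i j e => h.dA i j _ (hx i) (e ▸ hx j)
    have s1 : ((sm n).card : ℝ) ≤ (n ^ b * Real.exp 1) ^ n := by
      have s2 := card_small (V := Fin n) (a := 1 / n) (by positivity) ((div_le_one n0).2 n1) b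
      rw [one_div_one_div, Fintype.card_fin, one_div_mul_cancel n0.ne'] at s2
      rw [Fintype.card_piFinset_const, Nat.cast_pow]
      exact (pow_le_pow_left₀ (by positivity) s2 _).trans (pow_le_pow_right₀
        (one_le_mul_of_one_le_of_one_le (one_le_pow₀ n1) (Real.one_le_exp one_pos.le))
        (not_lt.1 hm))
    obtain ⟨z, z1, z2, z3⟩ : ∃ z : ℝ, 1 ≤ z ∧ 1 / z ≤ C * (n * p / n) ∧
        (z - 1) * (2 * (b * b : ℕ) ^ 2 * 2 ^ (b * b) * p) ≤ 1 := by
      rw [mul_div_cancel_left₀ _ n0.ne']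
      rcases le_total 1 (C * p) with h | h
      · exact ⟨1, le_rfl, by simpa using h, by simp⟩
      · have e : 1 / (C * p) * (C * p) = 1 := one_div_mul_cancel (by positivity)
        have e1 : 1 ≤ 1 / (C * p) := by rwa [one_le_div (by positivity)]
        refine ⟨1 / (C * p), e1, by simp, le_trans ?_ e.le⟩
        exact mul_le_mul (by linarith) (mul_le_mul_of_nonneg_right (by linarith) h0.le)
          (by positivity) (by positivity)
    refine (Pr_two h0.le p1 _ _ _ (c := (M / n ^ (2 * b + 1)) ^ n) (by positivity) (fun _ h => h)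
      (fun A _ B _ => Pr_if h0.le p1 (by positivity) fun h =>
        (Pr_blk h0 h1 h z1 z3 _).trans ?_) s1 s1).trans ?_
    · refine le_trans ?_ (pow_le_pow_left₀ (by positivity) (hM ▸ blk_num (K := 2 * b + 1) c0 C0.le
        (show 0 ≤ n * p by positivity) n0) n)
      rw [mul_pow, ← pow_mul]
      refine mul_le_mul (pow_le_pow_left₀ (by positivity) z2 _) ?_ (by positivity) (by positivity)
      rw [← Real.exp_nat_mul, Real.exp_le_exp, mul_neg, neg_le_neg_iff, hc]
      calc n * (μ ^ 2 / (2 * 2 ^ (b * b)) * (n * p)) =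
          (μ * n) ^ 2 * (p / (2 * 2 ^ (b * b))) := by ring
        _ ≤ _ := by gcongr; exact Nat.le_ceil _
    · rw [← mul_pow, ← mul_pow, one_mul, one_mul, ← mul_neg_one, Real.exp_nat_mul]
      refine pow_le_pow_left₀ (by positivity) ?_ _
      have e : Real.exp 3 * Real.exp (-1) = Real.exp 1 * Real.exp 1 := by
        rw [← Real.exp_add, ← Real.exp_add]; norm_num
      rw [show (n : ℝ) ^ b * Real.exp 1 * (n ^ b * Real.exp 1 * (M / n ^ (2 * b + 1))) =
        Real.exp 1 * Real.exp 1 * M / n by field_simp; ring, div_le_iff₀ n0, ← e]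
      nlinarith [Real.exp_pos (-1)]
  · rintro n p ω - - - ⟨A, B, h, h'⟩
    choose x hx using fun i => (h.ne i).1
    choose y hy using fun i => (h.ne i).2
    have ix : Function.Injective x := fun i j e => h.dA i j _ (hx i) (e ▸ hx j)
    have iy : Function.Injective y := fun i j e => h.dB i j _ (hy i) (e ▸ hy j)
    refine or_iff_not_imp_right.2 fun a => ⟨univ.image x, univ.image y, ⟨?_, ?_, fun t h1 h2 => ?_⟩, ?_⟩
    · simpa [card_image_of_injective _ ix] using Nat.le_ceil _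
    · simpa [card_image_of_injective _ iy] using Nat.le_ceil _
    · obtain ⟨i, -, rfl⟩ := mem_image.1 h1
      obtain ⟨j, -, e⟩ := mem_image.1 h2
      exact h.dAB _ _ _ (hx j) (e ▸ hy i)
    · rw [Fintype.card_fin]
      refine le_trans ?_ (le_of_not_ge fun c => a ⟨A, Fintype.mem_piFinset.2 fun i => by
        simpa using (h.le i).1, B, Fintype.mem_piFinset.2 fun i => by simpa using (h.le i).2,
        h, h', c⟩)
      rw [sum_image iy.injOn, card_eq_sum_card_fiberwise (f := Prod.snd) (t := univ)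
        (fun _ _ => mem_coe.2 (mem_univ _))]
      refine sum_le_sum fun j _ => ?_
      rw [row, filter_image]
      refine card_image_le.trans (card_le_card_of_injOn (fun i => (i, j)) (fun i hi => ?_)
        (Prod.mk_left_injective j).injOn)
      simp only [coe_filter, mem_filter, mem_univ, true_and, Set.mem_ofPred_eq, and_true] at hi ⊢
      exact card_ne_zero.2 ⟨_, mem_filter.2 ⟨mem_cross.2 ⟨_, hx i, _, hy j, Sym2.eq_swap⟩, hi⟩⟩

end Pool.Agent.P.MP_f57657_co
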