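import Pool.Agent.P.MP_f57657_co.W.Ev

/-! Counting span patterns over all fields. -/

open Finset Polynomial Submodule

namespace Pool.Agent.P.MP_f57657_co

theorem zp {Λ : Type*} [Fintype Λ] [DecidableEq Λ] (I : Finset (Finset Λ))
    (π : Finset Λ → Ideal ℤ[X]) (m : Finset Λ → Λ → ℤ[X]) {u M : ℕ} (hM : 1 ≤ M)
    (hπ : ∀ P ∈ I, (π P).IsPrime) (h1 : ∀ P ∈ I, ∀ r ∉ P, m P r ∉ π P)
    (h2 : ∀ P ∈ I, ∀ P' ∈ I, ∀ r ∈ P, r ∉ P' → m P' r ∈ π P)
    (h3 : ∀ P r, (m P r).natDegree ≤ u)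
    (h4 : ∀ P r (j : ℕ), j ≤ Fintype.card Λ * u → |(m P r).eval (j : ℤ)| ≤ M) :
    2 ^ I.card ≤ (2 * (I.card * M ^ Fintype.card Λ) + 1) ^ (Fintype.card Λ * u + 1) := by
  set d := Fintype.card Λ * u with hd
  set B : ℕ := I.card * M ^ Fintype.card Λ with hB
  let g : Finset Λ → ℤ[X] := fun P => ∏ r ∈ Pᶜ, m P r
  have g1 : ∀ J : Finset (Finset Λ), (∑ P ∈ J, g P).natDegree ≤ d := fun J =>
    natDegree_sum_le_of_forall_le _ _ fun P _ => (natDegree_prod_le _ _).trans
      ((sum_le_card_nsmul _ _ u fun r _ => h3 P r).trans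
        (Nat.mul_le_mul_right _ (card_le_univ _)))
  have g2 : ∀ J ⊆ I, ∀ j : ℕ, j ≤ d → |(∑ P ∈ J, g P).eval (j : ℤ)| ≤ B := by
    intro J hJ j hj
    rw [eval_finsetSum]
    refine (abs_sum_le_sum_abs _ _).trans ((sum_le_card_nsmul _ _ ((M : ℤ) ^ Fintype.card Λ)
      fun P _ => ?_).trans ?_)
    · rw [eval_prod, abs_prod]
      refine (prod_le_prod (fun _ _ => abs_nonneg _) fun r _ => h4 P r j hj).trans ?_
      rw [prod_const]
      exact pow_le_pow_right₀ (by exact_mod_cast hM) (card_le_univ _)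
    · rw [hB, nsmul_eq_mul]
      push_cast
      gcongr
  have aux : ∀ J ⊆ I, ∀ J' ⊆ I, ∑ P ∈ J, g P = ∑ P ∈ J', g P → ∀ P ∈ J \ J',
      ¬∀ P' ∈ (J \ J') ∪ (J' \ J), P'.card ≤ P.card := by
    intro J hJ J' hJ' e P hP h
    have hI := hJ (mem_sdiff.1 hP).1
    have := hπ P hI
    have k : ∀ P' ∈ (J \ J') ∪ (J' \ J), P' ≠ P → g P' ∈ π P := by
      intro P' a b
      have a' : P' ∈ I := by
        rcases mem_union.1 a with a | a
        exacts [hJ (mem_sdiff.1 a).1, hJ' (mem_sdiff.1 a).1]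
      obtain ⟨r, r1, r2⟩ := not_subset.1 fun c : P ⊆ P' => b (eq_of_subset_of_card_le c (h _ a)).symm
      exact Ideal.IsPrime.prod_mem_iff.2 ⟨r, mem_compl.2 r2, h2 P hI P' a' r r1 r2⟩
    have e1 := sum_sdiff_sub_sum_sdiff (s₁ := J') (s₂ := J) (f := g)
    rw [e, sub_self, ← add_sum_erase _ _ hP, sub_eq_zero, ← eq_sub_iff_add_eq] at e1
    have e2 : g P ∈ π P := e1 ▸ sub_mem
      (sum_mem fun P' a => k P' (mem_union_right _ a) fun b =>
        (mem_sdiff.1 a).2 (b ▸ (mem_sdiff.1 hP).1))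
      (sum_mem fun P' a => k P' (mem_union_left _ (mem_of_mem_erase a)) (ne_of_mem_erase a))
    obtain ⟨r, r1, r2⟩ := Ideal.IsPrime.prod_mem_iff.1 e2
    exact h1 P hI r (mem_compl.1 r1) r2
  have := card_le_card_of_injOn (s := I.powerset)
    (t := Fintype.piFinset fun _ : Fin (d + 1) => Icc (-(B : ℤ)) B)
    (fun J j => (∑ P ∈ J, g P).eval (j.1 : ℤ)) (fun J hJ => mem_coe.2 (Fintype.mem_piFinset.2
      fun j => mem_Icc.2 (abs_le.1 (g2 J (mem_powerset.1 hJ) j (Nat.le_of_lt_succ j.2))))) ?_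
  · rw [card_powerset, Fintype.card_piFinset, prod_const, card_univ, Fintype.card_fin,
      Int.card_Icc] at this
    refine this.trans (le_of_eq ?_)
    congr 1
    omega
  · intro J hJ J' hJ' e
    have a := mem_powerset.1 hJ
    have a' := mem_powerset.1 hJ'
    have e' := eq_of_natDegree_lt_card_of_eval_eq _ _ (f := fun j : Fin (d + 1) => (j.1 : ℤ))
      (fun i j h => Fin.ext (Nat.cast_injective (R := ℤ) h)) (congrFun e)
      (by rw [Fintype.card_fin]; exact Nat.lt_succ_of_le (max_le (g1 _) (g1 _)))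
    by_contra hne
    obtain ⟨P, hP, h⟩ := exists_max_image ((J \ J') ∪ (J' \ J)) Finset.card (by
      rw [nonempty_iff_ne_empty, Ne, union_eq_empty, sdiff_eq_empty_iff_subset,
        sdiff_eq_empty_iff_subset]
      exact fun h => hne (Subset.antisymm h.1 h.2))
    rcases mem_union.1 hP with b | b
    · exact aux J a J' a' e' P b h
    · exact aux J' a' J a e'.symm P b (by rwa [union_comm])

theorem zp_num {N u : ℕ} (hu : 1 ≤ u) (hN : N ≤ 2 ^ 2 ^ u) {l : ℕ} (hl : l ≤ 2 ^ u)
    (h : 2 ^ N ≤ (2 * (N * (2 ^ (4 * u ^ 2)) ^ l) + 1) ^ (l * u + 1)) : N ≤ 2 ^ (9 * u) := by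
  have a1 : u ≤ 2 ^ u := Nat.lt_two_pow_self.le
  have a2 : 1 ≤ 2 ^ u := Nat.one_le_two_pow
  have a3 : 2 ≤ 2 ^ u := by simpa using Nat.pow_le_pow_right (show 0 < 2 by norm_num) hu
  generalize hw : 2 ^ u = w at *
  have b1 : N * (2 ^ (4 * u ^ 2)) ^ l ≤ 2 ^ (w + 4 * w ^ 2 * w) := by
    rw [pow_add, ← pow_mul]
    gcongr
    norm_num
  have b2 : 2 * (N * (2 ^ (4 * u ^ 2)) ^ l) + 1 ≤ 2 ^ (w + 4 * w ^ 2 * w + 2) := by
    have : 1 ≤ 2 ^ (w + 4 * w ^ 2 * w) := Nat.one_le_two_pow
    rw [pow_add]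
    omega
  have b3 := h.trans (Nat.pow_le_pow_left b2 _)
  rw [← pow_mul, Nat.pow_le_pow_iff_right (by norm_num)] at b3
  rw [mul_comm 9, pow_mul, hw]
  have c1 : l * u + 1 ≤ w ^ 3 := by nlinarith [Nat.mul_le_mul hl a1]
  have c2 : w + 4 * w ^ 2 * w + 2 ≤ w ^ 6 := by
    have : 8 ≤ w ^ 3 := by simpa using Nat.pow_le_pow_left a3 3
    have h2 : w ≤ w ^ 3 := Nat.le_self_pow (by norm_num) _
    nlinarith
  exact b3.trans ((Nat.mul_le_mul c2 c1).trans (by rw [← pow_add]))

theorem exists_minor {k ι V : Type*} [Field k] [Fintype ι] [DecidableEq ι] [Fintype V]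
    (M : Matrix ι V k) (h : LinearIndependent k M.row) :
    ∃ c : ι → V, (M.submatrix id c).det ≠ 0 := by
  classical
  obtain ⟨κ, a, a1, a2, a3⟩ := exists_linearIndependent' k M.col
  have := Finite.of_injective a a1
  cases nonempty_fintype κ
  have e : Fintype.card ι = Fintype.card κ := by
    rw [← h.rank_matrix, Matrix.rank_eq_finrank_span_cols, ← a2, finrank_span_eq_card a3]
  let f := Fintype.equivOfCardEq e
  refine ⟨a ∘ f, ?_⟩
  rw [← isUnit_iff_ne_zero, ← Matrix.isUnit_iff_isUnit_det, ← Matrix.linearIndependent_cols_iff_isUnit]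
  exact a3.comp f f.injective

variable {V : Type*} [DecidableEq V] {p : ℝ}

/-- The indicator vector. -/
def ind (k : Type*) [Ring k] (a : Finset V) : V → k := fun s => if s ∈ a then 1 else 0

/-- Row `b` of the matrix `A - x`, on the columns in `S`. -/
def mrow (ω : Sym2 V → Bool) (S : Finset V) {k : Type*} [Ring k] (x : k) (b : V) : V → k :=
  fun s => if s ∈ S then (if s = b then -x else if ω s(b, s) then 1 else 0) else 0

theorem mrow_out (ω : Sym2 V → Bool) {S : Finset V} {k : Type*} [Ring k] (x : k) {t : V}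
    (ht : t ∉ S) : mrow ω S x t = ind k (row ω S t) := by
  funext s
  by_cases h : s ∈ S
  · simp [mrow, ind, row, h, show s ≠ t from fun e => ht (e ▸ h)]
  · simp [mrow, ind, row, h]

theorem mrow_mix (ω ω' : Sym2 V → Bool) {S : Finset V} {k : Type*} [Ring k] (x : k) {t b : V}
    (ht : t ∉ S) (hb : b ≠ t) : mrow (mix (star S t) ω ω') S x b = mrow ω S x b := by
  funext s
  by_cases h : s ∈ S
  · simp only [mrow, mix_star hb (show s ≠ t from fun e => ht (e ▸ h))]
  · simp [mrow, h]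

/-- The rows in `B` together with an indicator vector. -/
def mat (ω : Sym2 V → Bool) (S B a : Finset V) {k : Type*} [Ring k] (x : k) :
    Matrix (Option B) V k := Matrix.of fun i => i.elim (ind k a) fun b => mrow ω S x b

theorem mat_det (ω : Sym2 V → Bool) (S B a : Finset V) {k k' : Type*} [CommRing k] [CommRing k']
    (φ : k →+* k') (x : k) (c : Option B → V) :
    φ ((mat ω S B a x).submatrix id c).det = ((mat ω S B a (φ x)).submatrix id c).det := by
  rw [RingHom.map_det]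
  congr 1
  ext i j
  cases i <;> simp [mat, ind, mrow, apply_ite φ]

theorem mat_li (ω : Sym2 V → Bool) (S B a : Finset V) {k : Type*} [Field k] (x : k) :
    LinearIndependent k (mat ω S B a x).row ↔
      LinearIndepOn k (mrow ω S x) B ∧ ind k a ∉ span k (mrow ω S x '' B) := by
  rw [linearIndependent_option, Set.image_eq_range]
  rfl

variable [Fintype V]

/-- `P` is the set of `0/1` vectors in the span of the independent rows `B`, over some field. -/
def Pat (ω : Sym2 V → Bool) (S B : Finset V) (P : Finset (Finset V)) : Prop :=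
  ∃ (k : Type) (_ : Field k) (x : k), LinearIndepOn k (mrow ω S x) B ∧
    ∀ a, a ∈ P ↔ ind k a ∈ span k (mrow ω S x '' B)

theorem card_Pat (ω : Sym2 V → Bool) (S B : Finset V) :
    {P | Pat ω S B P}.ncard ≤ 2 ^ (9 * (Fintype.card V + 1)) := by
  classical
  set u := Fintype.card V + 1 with hu
  have hB : Fintype.card (Option B) ≤ u := by simpa [hu] using card_le_univ B
  have hl : Fintype.card (Finset V) ≤ 2 ^ u := by
    rw [Fintype.card_finset]
    exact Nat.pow_le_pow_right two_pos (Nat.le_succ _)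
  let Mn : Finset V → ℤ[X] → Prop := fun r f =>
    f = 0 ∨ ∃ c, f = ((mat ω S B r X).submatrix id c).det
  have key : ∀ P, ∃ (π : Ideal ℤ[X]) (m : Finset V → ℤ[X]), (∀ r, Mn r (m r)) ∧
      (Pat ω S B P → π.IsPrime ∧ (∀ r ∉ P, m r ∉ π) ∧ ∀ r ∈ P, ∀ f, Mn r f → f ∈ π) := by
    intro P
    by_cases h : Pat ω S B P
    swap
    · exact ⟨⊥, 0, fun _ => Or.inl rfl, fun a => absurd a h⟩
    obtain ⟨k, _, x, h1, h2⟩ := h
    let φ := eval₂RingHom (Int.castRingHom k) x
    have hφ : φ X = x := eval₂_X _ _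
    have : ∀ r, ∃ f, Mn r f ∧ (r ∉ P → f ∉ RingHom.ker φ) := fun r => by
      by_cases hr : r ∈ P
      · exact ⟨0, Or.inl rfl, fun a => absurd hr a⟩
      · obtain ⟨c, hc⟩ := exists_minor _ ((mat_li ω S B r x).2 ⟨h1, fun a => hr ((h2 r).2 a)⟩)
        exact ⟨_, Or.inr ⟨c, rfl⟩, fun _ => by rwa [RingHom.mem_ker, mat_det, hφ]⟩
    choose m m1 m2 using this
    refine ⟨RingHom.ker φ, m, m1, fun _ => ⟨RingHom.ker_isPrime φ, m2, ?_⟩⟩
    rintro r hr f (rfl | ⟨c, rfl⟩)
    · exact zero_mem _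
    · rw [RingHom.mem_ker, mat_det, hφ]
      refine Matrix.det_eq_zero_of_not_linearIndependent_rows fun a =>
        ((mat_li ω S B r x).1 ?_).2 ((h2 r).1 hr)
      exact LinearIndependent.of_comp (LinearMap.funLeft k k c) a
  choose π m m1 m2 using key
  rw [Set.ncard_eq_toFinset_card']
  have hI : ∀ P, P ∈ {P | Pat ω S B P}.toFinset → Pat ω S B P := fun P h => by simpa using h
  refine zp_num (Nat.succ_pos _) ((card_le_univ _).trans (by
    rw [Fintype.card_finset]; exact Nat.pow_le_pow_right two_pos hl)) hl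
    (zp _ π m Nat.one_le_two_pow (fun P h => (m2 P (hI P h)).1) (fun P h => (m2 P (hI P h)).2.1)
      (fun P h P' _ r hr _ => (m2 P (hI P h)).2.2 r hr _ (m1 P' r)) (fun P r => ?_)
      fun P r j hj => ?_)
  · rcases m1 P r with h | ⟨c, h⟩ <;> rw [h]
    · simp
    · rw [Matrix.det_apply]
      refine natDegree_sum_le_of_forall_le _ _ fun σ _ => (natDegree_smul_le _ _).trans
        ((natDegree_prod_le _ _).trans ((sum_le_card_nsmul _ _ 1 fun i _ => ?_).trans
          (by simpa using hB)))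
      rcases σ i with _ | b <;> simp only [Matrix.submatrix_apply, id, mat, Matrix.of_apply,
        Option.elim, ind, mrow] <;> split_ifs <;> simp
  · rcases m1 P r with h | ⟨c, h⟩ <;> rw [h]
    · simp
    · have a1 : u ≤ 2 ^ u := Nat.lt_two_pow_self.le
      have a2 : j ≤ 2 ^ (2 * u) := hj.trans (by rw [two_mul, pow_add]; exact Nat.mul_le_mul hl a1)
      have a3 : (j : ℤ) ≤ 2 ^ (2 * u) := by exact_mod_cast a2
      have a4 : (1 : ℤ) ≤ 2 ^ (2 * u) := one_le_pow₀ one_le_two
      have e := mat_det ω S B r (evalRingHom (j : ℤ)) X c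
      rw [coe_evalRingHom, eval_X] at e
      rw [e]
      refine (Matrix.det_le (abv := AbsoluteValue.abs) (x := (2 : ℤ) ^ (2 * u))
        fun i i' => ?_).trans ?_
      · rcases i with _ | b <;> simp only [Matrix.submatrix_apply, id, mat, Matrix.of_apply,
          Option.elim, ind, mrow] <;> split_ifs <;> simp [a3, a4]
      · generalize Fintype.card (Option B) = v at hB
        have b1 : v.factorial ≤ 2 ^ (u * u) := by
          rw [pow_mul]
          exact v.factorial_le_pow.trans ((Nat.pow_le_pow_left (hB.trans a1) _).trans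
            (Nat.pow_le_pow_right (by positivity) hB))
        have b2 : v.factorial * (2 ^ (2 * u)) ^ v ≤ 2 ^ (4 * u ^ 2) := by
          refine (Nat.mul_le_mul b1 (Nat.pow_le_pow_right (by positivity) hB)).trans ?_
          rw [← pow_mul, ← pow_add]
          exact Nat.pow_le_pow_right two_pos (by nlinarith)
        rw [nsmul_eq_mul]
        exact_mod_cast b2

/-- Many rows lie in an unlikely span of independent rows of `A - x`, over some field. -/
def EvS (p β ρ : ℝ) (ω : Sym2 V → Bool) : Prop :=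
  ∃ S B T : Finset V, β * Fintype.card V ≤ T.card ∧ (∀ t ∈ T, t ∉ S ∧ t ∉ B) ∧
    ∃ (k : Type) (_ : Field k) (x : k), LinearIndepOn k (mrow ω S x) B ∧
      rP p S (fun a => ind k a ∈ span k (mrow ω S x '' B)) ≤ ρ ∧
      ∀ t ∈ T, mrow ω S x t ∈ span k (mrow ω S x '' B)

theorem Pr_S0 (h0 : 0 ≤ p) (h1 : p ≤ 1) {ρ : ℝ} (hρ : 0 ≤ ρ) {S B T : Finset V}
    (h2 : ∀ t ∈ T, t ∉ S ∧ t ∉ B) :
    Pr p (fun ω => ∃ P, (Pat ω S B P ∧ rP p S (· ∈ P) ≤ ρ) ∧ ∀ t ∈ T, row ω S t ∈ P) ≤
      ρ ^ T.card * Real.exp (9 * (Fintype.card V + 1)) := by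
  refine fm h0 h1 T (fun _ => S) (fun P ω => Pat ω S B P ∧ rP p S (· ∈ P) ≤ ρ)
    (fun P _ _ a => a ∈ P) hρ (fun _ t ht => (h2 t ht).1)
    (fun P t ht ω ω' => and_congr_left' ?_) (fun _ _ _ _ _ _ _ => rfl)
    (fun _ _ _ _ h => h.2) fun ω => ?_
  · refine exists₃_congr fun k _ x => ?_
    have e : Set.EqOn (mrow (mix (star S t) ω ω') S x) (mrow ω S x) B := fun b hb =>
      mrow_mix ω ω' x (h2 t ht).1 fun e => (h2 t ht).2 (e ▸ hb)
    rw [linearIndepOn_congr e, e.image_eq]
  · have a1 := (Set.ncard_le_ncard (s := {P | Pat ω S B P ∧ rP p S (· ∈ P) ≤ ρ})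
      fun P h => h.1).trans (card_Pat ω S B)
    have a2 := one_add_pow_le (b := 1) (by norm_num) (9 * (Fintype.card V + 1))
    rw [one_add_one_eq_two, mul_one] at a2
    push_cast at a2
    exact le_trans (by exact_mod_cast a1) a2

theorem rare_S {β : ℝ} (hβ : 0 < β) : ∃ ρ, 0 < ρ ∧ Rare fun n p ω => EvS (V := Fin n) p β ρ ω := by
  classical
  refine ⟨Real.exp (-(13 / β)), Real.exp_pos _, Rare.of_exp 0 (Real.exp 9) 1 (Real.exp_pos _).le
    one_pos fun n p _ b c => ?_⟩
  have hs := card_sets (V := Fin n)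
  have p1 : p ≤ 1 := by linarith
  rw [Fintype.card_fin] at hs
  let E : Finset (Fin n) → Finset (Fin n) → Finset (Fin n) → (Sym2 (Fin n) → Bool) → Prop :=
    fun S B T ω => (β * n ≤ T.card ∧ ∀ t ∈ T, t ∉ S ∧ t ∉ B) ∧
      ∃ P, (Pat ω S B P ∧ rP p S (· ∈ P) ≤ Real.exp (-(13 / β))) ∧ ∀ t ∈ T, row ω S t ∈ P
  have a1 : ∀ S B T, Pr p (E S B T) ≤ Real.exp (-(13 * n)) * Real.exp (9 * (n + 1)) :=
    fun S B T => Pr_if b.le p1 (by positivity) fun ⟨h1, h2⟩ => by
      refine (Pr_S0 b.le p1 (Real.exp_pos _).le h2).trans ?_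
      rw [Fintype.card_fin]
      refine mul_le_mul_of_nonneg_right (exp_pow_le ?_) (Real.exp_pos _).le
      rw [div_mul_eq_mul_div, le_div_iff₀ hβ]
      linarith
  have a2 : ∀ S, Pr p (fun ω => ∃ B ∈ univ, ∃ T ∈ univ, E S B T ω) ≤ Real.exp n *
      (Real.exp n * (Real.exp (-(13 * n)) * Real.exp (9 * (n + 1)))) := fun S =>
    Pr_two b.le p1 univ univ (E S) (by positivity) (fun ω h => h) (fun B _ T _ => a1 S B T) hs hs
  refine (Pr_union b.le p1 univ (fun S ω => ∃ B ∈ univ, ∃ T ∈ univ, E S B T ω) ?_).trans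
    ((sum_le_card_nsmul _ _ _ fun S _ => a2 S).trans ?_)
  · rintro ω ⟨S, B, T, h1, h2, k, _, x, h3, h4, h5⟩
    refine ⟨S, mem_univ _, B, mem_univ _, T, mem_univ _, ⟨by simpa using h1, h2⟩,
      univ.filter fun a => ind k a ∈ span k (mrow ω S x '' B), ⟨⟨k, _, x, h3, by simp⟩,
      by simpa using h4⟩, fun t ht => ?_⟩
    simpa [← mrow_out ω x (h2 t ht).1] using h5 t ht
  · rw [nsmul_eq_mul]
    refine (mul_le_mul_of_nonneg_right hs (by positivity)).trans (le_of_eq ?_)
    simp only [← Real.exp_add]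
    congr 1
    ring

omit [Fintype V] in
theorem odlyzko (h0 : 0 ≤ p) (h1 : p ≤ 1 / 2) {k : Type*} [Field k] [Finite V] (S : Finset V) :
    ∀ (L : Submodule k (V → k)) (d : ℕ), Module.finrank k L + d ≤ S.card →
      rP p S (fun a => ind k a ∈ L) ≤ (1 - p) ^ d := by
  classical
  have p1 : p ≤ 1 := by linarith
  induction S using Finset.induction_on with
  | empty =>
    intro L d h
    obtain rfl : d = 0 := by simp at h; omega
    simpa using rP_le_one h0 p1 _ _
  | insert s S hs ih =>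
    intro L d h
    rw [card_insert_of_notMem hs] at h
    let π : (V → k) →ₗ[k] (V → k) := LinearMap.id - (LinearMap.single k _ s).comp (LinearMap.proj s)
    have e1 : ∀ a ⊆ S, π (ind k a) = ind k a := fun a ha => by
      simp [π, ind, show s ∉ a from fun h => hs (ha h)]
    have e2 : ∀ a ⊆ S, ind k (insert s a) = ind k a + Pi.single s 1 := fun a ha => by
      funext j
      by_cases hj : j = s
      · simp [ind, hj, show s ∉ a from fun h => hs (ha h)]
      · simp [ind, hj]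
    have e3 : π (Pi.single s 1) = 0 := by simp [π]
    have m1 : ∀ a ⊆ S, ind k a ∈ L → ind k a ∈ L.map π := fun a ha h => ⟨_, h, e1 a ha⟩
    have m2 : ∀ a ⊆ S, ind k (insert s a) ∈ L → ind k a ∈ L.map π := fun a ha h =>
      ⟨_, h, by rw [e2 a ha, map_add, e1 a ha, e3, add_zero]⟩
    rw [rP, rE_insert hs]
    by_cases hL : (Pi.single s 1 : V → k) ∈ L
    · refine le_trans (rE_mono h0 p1 fun a ha => ?_) (ih (L.map π) d ?_)
      · have := m1 a ha
        have := m2 a ha
        split_ifs <;> first | linarith | tauto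
      · have a1 := (π.domRestrict L).finrank_range_add_finrank_ker
        have a2 : Module.finrank k (LinearMap.ker (π.domRestrict L)) ≠ 0 := fun e => by
          have : (⟨_, hL⟩ : L) ∈ LinearMap.ker (π.domRestrict L) := e3
          rw [finrank_eq_zero.1 e, mem_bot] at this
          simpa using congrFun (congrArg Subtype.val this) s
        rw [LinearMap.range_domRestrict] at a1
        omega
    · rcases d with _ | d
      · rw [← rE_insert hs fun a => if ind k a ∈ L then 1 else 0, pow_zero]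
        exact rP_le_one h0 p1 _ _
      · have a1 := ih (L.map π) d (by have := finrank_map_le π L; omega)
        refine le_trans (rE_mono h0 p1 (F' := fun a => (1 - p) * if ind k a ∈ L.map π then 1 else 0)
          fun a ha => ?_) ?_
        · have := m1 a ha
          have := m2 a ha
          have : ind k (insert s a) ∈ L → ind k a ∉ L := fun x y => hL (by
            simpa [e2 a ha] using sub_mem x y)
          split_ifs <;> first | linarith | tauto
        · rw [rE_mul, pow_succ']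
          exact mul_le_mul_of_nonneg_left a1 (by linarith)

end Pool.Agent.P.MP_f57657_co
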