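import Pool.Agent.P.MP_f57657_co.W.Str
import Pool.Agent.P.MP_f57657_co.W.Pat

/-! Eigenvectors over a field, and the deterministic reduction. -/

open Finset Polynomial Submodule

namespace Pool.Agent.P.MP_f57657_co

variable {V : Type*} [Fintype V] [DecidableEq V] {p : ℝ} {ω : Sym2 V → Bool}

omit [DecidableEq V] in
theorem exists_basis {k : Type*} [Field k] (r : V → V → k) {B U : Finset V}
    (h : LinearIndepOn k r B) (hU : B ⊆ U) : ∃ B' : Finset V, B ⊆ B' ∧ B' ⊆ U ∧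
      LinearIndepOn k r B' ∧ ∀ t ∈ U, r t ∈ span k (r '' B') := by
  obtain ⟨b, h1, h2, h3, h4⟩ := exists_linearIndepOn_extension h (coe_subset.2 hU)
  lift b to Finset V using Set.toFinite b
  exact ⟨b, coe_subset.1 h2, coe_subset.1 h1, h4, fun t ht => h3 ⟨t, ht, rfl⟩⟩

omit [Fintype V] in
theorem card_le_of_li {k : Type*} [Field k] {x : k} {S B : Finset V}
    (h : LinearIndepOn k (mrow ω S x) B) : B.card ≤ S.card := by
  let e : (S → k) →ₗ[k] (V → k) :=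
    LinearMap.pi fun v => if h : v ∈ S then LinearMap.proj (⟨v, h⟩ : S) else 0
  have e1 : (e ∘ fun (b : B) (s : S) => mrow ω S x b s) = fun b : B => mrow ω S x b := by
    ext b v
    by_cases hv : v ∈ S <;> simp [e, hv, mrow]
  have e2 : LinearIndependent k (e ∘ fun (b : B) (s : S) => mrow ω S x b s) := by
    rw [e1]; exact h
  have := (LinearIndependent.of_comp e e2).fintype_card_le_finrank
  simpa using this

theorem unstruct (h0 : 0 < p) (h1 : p ≤ 1 / 2) {k : Type} [Field k] {x₀ : k} {x : V → k}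
    {D T : Finset V} (hX : ∀ v ∉ D, x₀ * x v = ∑ w ∈ nbh ω v, x w) (hT : ∀ t ∈ T, x t = 0)
    {β ρ : ℝ} (hρ : rP p Tᶜ (fun a => ∑ w ∈ a, x w = 0) ≤ ρ)
    (hD : (D.card : ℝ) ≤ β * Fintype.card V) (hβ : 7 * β * Fintype.card V ≤ T.card)
    (hn : 1 ≤ β * Fintype.card V) (hd : ∀ d : ℕ, β * Fintype.card V ≤ d → (1 - p) ^ d ≤ ρ) :
    EvS p β ρ ω := by
  obtain ⟨B, -, a1, a2, a3⟩ := exists_basis (mrow ω Tᶜ x₀) (B := ∅) (U := Tᶜ \ D) (by simp)
    (empty_subset _)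
  obtain ⟨j, j1, j2⟩ : ∃ j : ℕ, β * Fintype.card V ≤ j ∧ j ≤ 2 * β * Fintype.card V :=
    ⟨_, Nat.le_ceil _, by linarith [Nat.ceil_lt_add_one (zero_le_one.trans hn)]⟩
  have a4 := card_sdiff_add_card_eq_card a1
  have a5 := le_card_sdiff D Tᶜ
  have a6 : (Tᶜ \ D).card ≤ Tᶜ.card := card_le_card sdiff_subset
  by_cases hc : 2 * j ≤ ((Tᶜ \ D) \ B).card
  · obtain ⟨J, b1, b2⟩ := exists_subset_card_eq (s := (Tᶜ \ D) \ B) (n := j) (by omega)
    obtain ⟨B', -, b3, b4, b5⟩ := exists_basis (mrow ω (Tᶜ \ J) x₀) (B := ∅) (U := B) (by simp)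
      (empty_subset _)
    let π : (V → k) →ₗ[k] (V → k) := LinearMap.pi fun v => if v ∈ J then 0 else LinearMap.proj v
    have b6 : ∀ b, π (mrow ω Tᶜ x₀ b) = mrow ω (Tᶜ \ J) x₀ b := fun b => by
      funext v
      by_cases hv : v ∈ J <;> simp [π, hv, mrow]
    refine ⟨Tᶜ \ J, B', J, b2 ▸ j1, fun t ht => ⟨fun h => (mem_sdiff.1 h).2 ht,
      fun h => (mem_sdiff.1 (b1 ht)).2 (b3 h)⟩, k, inferInstance, x₀, b4,
      (odlyzko h0.le h1 _ _ j ?_).trans (hd j j1), fun t ht => ?_⟩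
    · have c1 := finrank_span_eq_card b4
      have c2 := card_le_card b3
      have c3 := le_card_sdiff J Tᶜ
      rw [Set.image_eq_range, c1]
      simp only [coe_sort_coe, Fintype.card_coe]
      omega
    · have := mem_map_of_mem (f := π) (a3 t (mem_sdiff.1 (b1 ht)).1)
      rw [b6, map_span] at this
      refine span_le.2 ?_ this
      rintro _ ⟨_, ⟨b, hb, rfl⟩, rfl⟩
      exact b6 b ▸ b5 b hb
  · obtain ⟨B', b1, b2, b3, b4⟩ := exists_basis (mrow ω Tᶜ x₀) (U := Dᶜ) a2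
      fun v hv => mem_compl.2 (mem_sdiff.1 (a1 hv)).2
    let l : (V → k) →ₗ[k] k := ∑ v, x v • LinearMap.proj v
    have l1 : ∀ y, l y = ∑ v, x v * y v := fun y => by simp [l]
    have b5 : span k (mrow ω Tᶜ x₀ '' B') ≤ LinearMap.ker l := span_le.2 (by
      rintro _ ⟨b, hb, rfl⟩
      rw [SetLike.mem_coe, LinearMap.mem_ker, l1, ← add_sum_erase _ _ (mem_univ b),
        sum_congr rfl (g := fun v => if ω s(b, v) = true then x v else 0) fun v hv => ?_,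
        ← sum_filter, add_eq_zero_iff_neg_eq]
      · refine Eq.trans ?_ (hX b (mem_compl.1 (b2 hb)))
        by_cases h : b ∈ T <;> simp [mrow, h, hT, mul_comm]
      · by_cases h : v ∈ T <;> simp [mrow, h, hT, ne_of_mem_erase hv])
    refine ⟨Tᶜ, B', (T \ D) \ B', ?_, fun t ht => ⟨fun h => mem_compl.1 h
      (mem_sdiff.1 (mem_sdiff.1 ht).1).1, (mem_sdiff.1 ht).2⟩, k, inferInstance, x₀, b3,
      le_trans (rP_mono h0.le (by linarith) fun a _ h => ?_) hρ,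
      fun t ht => b4 t (mem_compl.2 (mem_sdiff.1 (mem_sdiff.1 ht).1).2)⟩
    · have c1 := card_le_of_li b3
      have c2 := card_sdiff_add_card_eq_card b1
      have c3 : T.card ≤ ((T \ D) \ B').card + D.card + (B' \ B).card :=
        (card_le_card fun t ht => by
          have : t ∉ B := fun h => mem_compl.1 (mem_sdiff.1 (a1 h)).1 ht
          by_cases h : t ∈ D <;> by_cases h' : t ∈ B' <;> simp [*]).trans
          ((card_union_le _ _).trans (Nat.add_le_add_right (card_union_le _ _) _))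
      have c4 : T.card ≤ ((T \ D) \ B').card + 2 * D.card + 2 * j := by omega
      have c5 : (T.card : ℝ) ≤ ((T \ D) \ B').card + 2 * D.card + 2 * j := by exact_mod_cast c4
      linarith
    · simpa [l1, ind] using LinearMap.mem_ker.1 (b5 h)

theorem core (h0 : 0 < p) (h1 : p ≤ 1 / 2) {M : Type} [AddCommGroup M] [Module ℤ[X] M]
    {ψ : V → M} {D T : Finset V} (hX : ∀ v ∉ D, (X : ℤ[X]) • ψ v = ∑ w ∈ nbh ω v, ψ w)
    (hT : ∀ t ∈ T, ψ t = 0) {γ K K₂ η η' β ρ ε τ τ' : ℝ} {q Q L : ℕ}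
    (nU : ¬EvU p γ (K + γ) η' ω) (nN : ¬EvN p γ η ω) (nS : ¬EvS p β ρ ω)
    (nG : ¬EvG (Q ^ 2) p (6 * η) ε q ω) (g0 : 0 ≤ γ) (g1 : γ ≤ K)
    (hD : (D.card : ℝ) ≤ η * Fintype.card V)
    (hs' : ∀ Y : Finset V, Y.card * p ≤ K + γ → (Y.card + D.card : ℝ) ≤ η' * Fintype.card V)
    (hs : ∀ Y : Finset V, Y.card * p ≤ K → Y.card ≤ η * Fintype.card V)
    (hε : ε * Fintype.card V ≤ T.card) (e1 : 7 * β ≤ ε) (e2 : 3 * η ≤ β)
    (hn : 1 ≤ β * Fintype.card V) (hd : ∀ d : ℕ, β * Fintype.card V ≤ d → (1 - p) ^ d ≤ ρ)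
    (q1 : 1 ≤ q) (q2 : q ^ 2 ≤ Q) (l0 : 0 < L) (l1 : L ≤ Q) (t0 : 0 ≤ τ) (t1 : 16 ^ Q * τ < K₂)
    (t2 : Real.exp (-(τ / 4)) ≤ 1 / 2 / Q) (t3 : 0 ≤ τ') (t4 : 1 / L + Real.exp (-(τ' / 4)) ≤ ρ)
    (k1 : 16 ^ L * τ' + (K₂ + 1) * Q ≤ K) :
    ∃ (E : Finset V) (N : Submodule ℤ[X] M), E.card * p ≤ γ ∧ Finite N ∧ Nat.card N ≤ q ∧
      ∀ v ∉ E, ψ v ∈ N := by
  classical
  have n0 : (0 : ℝ) ≤ Fintype.card V := Nat.cast_nonneg _
  obtain ⟨E, a1, a2⟩ := (Set.toFinite {E : Finset V | E.card * p ≤ γ}).exists_minimalFor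
    (fun E : Finset V => span ℤ[X] (ψ '' ↑Eᶜ)) _ ⟨∅, by simpa using g0⟩
  set N := span ℤ[X] (ψ '' ↑Eᶜ) with hN
  have a3 : ∀ v ∉ E, ψ v ∈ N := fun v hv => subset_span ⟨v, by simpa using hv, rfl⟩
  by_cases hq : Finite N ∧ Nat.card N ≤ q
  · exact ⟨E, N, a1, hq.1, hq.2, a3⟩
  exfalso
  have : Module.Finite ℤ[X] N := Module.Finite.span_of_finite _ (Set.toFinite _)
  obtain ⟨N', b1, b2, b3⟩ := alg q1 hq
  let φ : V → N ⧸ N' := fun v => if h : v ∈ E then 0 else N'.mkQ ⟨ψ v, a3 v h⟩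
  let up : AddSubgroup (N ⧸ N') → AddSubgroup M := fun H =>
    (H.comap N'.mkQ.toAddMonoidHom).map N.subtype.toAddMonoidHom
  have u1 : ∀ H (x : N), x.1 ∈ up H ↔ N'.mkQ x ∈ H := fun H x =>
    ⟨fun ⟨y, a, b⟩ => by rwa [← Subtype.ext (a1 := y) b], fun a => ⟨x, a, rfl⟩⟩
  have u2 : ∀ H, off φ H ⊆ off ψ (up H) := fun H v hv => by
    by_cases h : v ∈ E
    · simp [φ, h] at hv
    · exact mem_off.2 fun a => mem_off.1 hv (by simpa only [φ, dif_neg h] using (u1 H ⟨_, _⟩).1 a)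
  have hg : ∀ H H' : AddSubgroup (N ⧸ N'), H ≤ H' → (∀ h ∈ H, (X : ℤ[X]) • h ∈ H') →
      (off φ H).card * p ≤ K → (off ψ (up H')).card * p ≤ γ := fun H H' c1 c2 c3 => by
    refine gap h0.le (f := fun m => (X : ℤ[X]) • m) hX nU hs' (H := up H)
      (AddSubgroup.map_mono (AddSubgroup.comap_mono c1)) ?_ ?_
    · rintro _ ⟨y, a, rfl⟩
      exact (u1 H' ((X : ℤ[X]) • y)).2 (by rw [map_smul]; exact c2 _ a)
    · refine (mass_le h0.le (B := off φ H) (C := E) fun v hv => ?_).trans (add_le_add c3 a1)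
      refine or_iff_not_imp_right.2 fun h => mem_off.2 fun a => mem_off.1 hv ?_
      exact (u1 H ⟨_, a3 v h⟩).2 (by simpa only [φ, dif_neg h] using a)
  have hp : ∀ G' : Submodule ℤ[X] (N ⧸ N'), (off φ G'.toAddSubgroup).card * p ≤ K → G' = ⊤ := by
    intro G' c1
    have c2 : span ℤ[X] (ψ '' ↑(off ψ (up G'.toAddSubgroup))ᶜ) ≤
        (G'.comap N'.mkQ).map N.subtype := span_le.2 (by
      rintro _ ⟨v, hv, rfl⟩
      exact not_not.1 fun a => mem_compl.1 (mem_coe.1 hv) (mem_off.2 a))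
    have c3 := (a2 (hg _ _ le_rfl (fun h => G'.smul_mem _) c1)
      (c2.trans (map_subtype_le _ _))).trans c2
    refine eq_top_iff.2 fun y _ => ?_
    obtain ⟨x, rfl⟩ := N'.mkQ_surjective y
    exact (u1 G'.toAddSubgroup x).1 (c3 x.2)
  have hX' : ∀ v ∉ D ∪ E ∪ nbo ω E, (X : ℤ[X]) • φ v = ∑ w ∈ nbh ω v, φ w := fun v hv => by
    simp only [mem_union, not_or] at hv
    have c1 := fun w hw => not_mem_of_nbh (w := w) hv.1.2 hv.2 hw
    rw [← sum_attach, sum_congr rfl fun w _ => dif_neg (c1 w.1 w.2), ← map_sum]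
    simp only [φ, dif_neg hv.1.2, ← map_smul]
    congr 1
    refine Subtype.ext ?_
    rw [Submodule.coe_sum, sum_attach _ ψ, ← hX v hv.1.1]
    rfl
  have hT' : ∀ t ∈ T, φ t = 0 := fun t ht => by
    by_cases h : t ∈ E
    · exact dif_pos h
    · simp only [φ, dif_neg h, hT t ht]
      exact map_zero _
  have hD' : ((D ∪ E ∪ nbo ω E).card : ℝ) ≤ 3 * η * Fintype.card V := by
    have c1 : ((D ∪ E ∪ nbo ω E).card : ℝ) ≤ D.card + E.card + (nbo ω E).card := by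
      exact_mod_cast (card_union_le _ _).trans (Nat.add_le_add_right (card_union_le _ _) _)
    linarith [hs E (a1.trans g1), card_nbo nN a1]
  by_cases hc : ∃ H : AddSubgroup (N ⧸ N'), Nat.card H ≤ Q ∧ (off φ H).card * p ≤ 16 ^ L * τ'
  · obtain ⟨H, c1, c2⟩ := hc
    exact nG (struct h0 h1 hX' hT' hε b2 hp (fun H H' c1 c2 c3 =>
      (mass_mono h0.le (u2 H')).trans (hg H H' c1 c2 c3)) nN hD' hs t0 t1 t2 k1 c1 c2)
  rcases b3 with b3 | b3
  · refine hc ⟨⊤, by rw [AddSubgroup.card_top]; exact b3.trans q2, ?_⟩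
    rw [show off φ ⊤ = ∅ by ext; simp]
    simp only [card_empty, Nat.cast_zero, zero_mul]
    positivity
  obtain ⟨m, hm, ⟨e⟩⟩ := isSimpleModule_iff_quot_maximal.1 b3
  let := Ideal.Quotient.field m
  cases nonempty_fintype (N ⧸ N')
  refine nS (unstruct h0 h1 (x₀ := Ideal.Quotient.mk m X) (x := fun v => e (φ v))
    (D := D ∪ E ∪ nbo ω E) (T := T) (fun v hv => ?_) (fun t ht => by simp [hT' t ht]) ?_
    (hD'.trans (by gcongr)) (le_trans (by gcongr) hε) hn hd)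
  · rw [← smul_quot, ← map_smul, hX' v hv, map_sum]
  · refine (rP_mono h0.le (by linarith) (B := fun a => ∑ w ∈ a, φ w = 0) fun a _ h => ?_).trans ?_
    · rwa [← map_sum, e.map_eq_zero_iff] at h
    · rcases LO h0.le h1 Tᶜ φ 0 t3 l0 with c | ⟨H, c1, -, c2⟩
      · exact c.trans t4
      · refine absurd ⟨H, c1.trans l1, (mass_mono h0.le fun v hv => ?_).trans c2⟩ hc
        refine mem_filter.2 ⟨mem_compl.2 fun h => mem_off.1 hv ?_, mem_off.1 hv⟩
        rw [hT' v h]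
        exact zero_mem _

end Pool.Agent.P.MP_f57657_co
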