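import Mathlib

/-! Orthogonal conjugations with many coarse columns. -/

open Matrix

namespace Pool.Agent.P.MP_f57657_co

open Classical in
/-- `A_H = Uᵀ A_F U` for a real orthogonal matrix `U` such that in all but at most `m` columns
every entry is `0` or of absolute value at least `θ`. -/
def IsCoarse {X : Type*} [Finite X] (F H : SimpleGraph X) (θ m : ℝ) : Prop :=
  letI := Fintype.ofFinite X
  ∃ (S : Finset X) (U : Matrix X X ℝ), (S.card : ℝ) ≤ m ∧ Uᵀ * U = 1 ∧
    (∀ t ∉ S, ∀ i, U i t = 0 ∨ θ ≤ |U i t|) ∧ H.adjMatrix ℝ = Uᵀ * F.adjMatrix ℝ * U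

end Pool.Agent.P.MP_f57657_co
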