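import Pool.Agent.P.MP_f57657_co.W.Rel
import Pool.Agent.P.MP_f57657_co.W.Blk
import Pool.Agent.P.MP_f57657_co.W.Defs2

/-! From coarse columns to integral rows. -/

open Finset Matrix Polynomial

namespace Pool.Agent.P.MP_f57657_co

theorem greedy {α β : Type*} [DecidableEq α] [DecidableEq β] (I : Finset α) (B : α → Finset β) {b : ℕ}
    (h0 : ∀ t ∈ I, (B t).Nonempty) (h1 : ∀ t ∈ I, (B t).card ≤ b)
    (h2 : ∀ i, (I.filter fun t => i ∈ B t).card ≤ b) :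
    ∃ J ⊆ I, (∀ s ∈ J, ∀ t ∈ J, ∀ i ∈ B s, i ∈ B t → s = t) ∧ I.card ≤ J.card * b * b := by
  obtain ⟨J, a1, a2⟩ := exists_max_image (I.powerset.filter fun J => ∀ s ∈ J, ∀ t ∈ J,
    ∀ i ∈ B s, i ∈ B t → s = t) card ⟨∅, by simp⟩
  obtain ⟨a3, a4⟩ := mem_filter.1 a1
  rw [mem_powerset] at a3
  refine ⟨J, a3, a4, (card_le_card (t := (J.biUnion B).biUnion fun i => I.filter fun t => i ∈ B t)
    fun t ht => ?_).trans ((card_biUnion_le_card_mul _ _ b fun i _ => h2 i).trans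
      (Nat.mul_le_mul_right _ (card_biUnion_le_card_mul _ _ b fun s hs => h1 s (a3 hs))))⟩
  by_contra hn
  have a5 : ∀ s ∈ J, ∀ i ∈ B s, i ∉ B t := fun s hs i hi h =>
    hn (mem_biUnion.2 ⟨i, mem_biUnion.2 ⟨s, hs, hi⟩, mem_filter.2 ⟨ht, h⟩⟩)
  have a6 : t ∉ J := fun h => let ⟨i, hi⟩ := h0 t ht; a5 t h i hi hi
  have := a2 (insert t J) (mem_filter.2 ⟨mem_powerset.2 (insert_subset ht a3), by
    intro s hs r hr i h3 h4
    rcases mem_insert.1 hs with rfl | hs' <;> rcases mem_insert.1 hr with rfl | hr'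
    exacts [rfl, (a5 r hr' i h4 h3).elim, (a5 s hs' i h3 h4).elim, a4 s hs' r hr' i h3 h4]⟩)
  rw [card_insert_of_notMem a6] at this
  omega

theorem card_le_of_sq {α : Type*} [Fintype α] {f : α → ℝ} (h : ∑ j, f j ^ 2 = 1) {θ : ℝ}
    (h0 : 0 < θ) {B : Finset α} (hB : ∀ j ∈ B, θ ≤ |f j|) : B.card ≤ ⌊1 / θ ^ 2⌋₊ := by
  refine Nat.le_floor ((le_div_iff₀ (by positivity)).2 ?_)
  rw [← nsmul_eq_mul, ← h]
  exact (card_nsmul_le_sum _ _ _ fun j hj => sq_abs (f j) ▸ pow_le_pow_left₀ h0.le (hB j hj) 2).trans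
    (sum_le_sum_of_subset_of_nonneg (subset_univ _) fun _ _ _ => sq_nonneg _)

theorem IsCoarse.elim {W : Type*} [Finite W] [i₁ : Fintype W] [i₂ : DecidableEq W]
    {F H : SimpleGraph W} [i₃ : DecidableRel F.Adj] [i₄ : DecidableRel H.Adj] {θ m : ℝ} : IsCoarse F H θ m ↔
    ∃ (S : Finset W) (U : Matrix W W ℝ), (S.card : ℝ) ≤ m ∧ Uᵀ * U = 1 ∧
      (∀ t ∉ S, ∀ i, U i t = 0 ∨ θ ≤ |U i t|) ∧ H.adjMatrix ℝ = Uᵀ * F.adjMatrix ℝ * U := by
  obtain rfl : i₁ = Fintype.ofFinite W := Subsingleton.elim _ _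
  obtain rfl : i₂ = fun _ _ => Classical.propDecidable _ := Subsingleton.elim _ _
  obtain rfl : i₃ = fun _ _ => Classical.propDecidable _ := Subsingleton.elim _ _
  obtain rfl : i₄ = fun _ _ => Classical.propDecidable _ := Subsingleton.elim _ _
  rfl

variable {V : Type} [Fintype V] [DecidableEq V] {ω : Sym2 V → Bool}

open Classical in
theorem not_one {W : Set V} {H : SimpleGraph W} {U : Matrix W W ℝ}
    (hA : H.adjMatrix ℝ = Uᵀ * ((gr ω).induce W).adjMatrix ℝ * U) {s t : W}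
    (hs : ∀ i, U i s ^ 2 < 1) (ht : ∀ i, U i t ^ 2 < 1) (hd : ∀ i, U i s ≠ 0 → U i t = 0) :
    nb (cross (up (univ.filter fun i => U i s ≠ 0)) (up (univ.filter fun i => U i t ≠ 0))) ω
      ≠ 1 := by
  intro h
  obtain ⟨e, he⟩ := card_eq_one.1 h
  obtain ⟨a1, a2⟩ := mem_filter.1 (he ▸ mem_singleton_self e)
  obtain ⟨a, a3, c, a4, rfl⟩ := mem_cross.1 a1
  obtain ⟨ha, a3⟩ := mem_up.1 a3
  obtain ⟨hc, a4⟩ := mem_up.1 a4
  replace a3 := (mem_filter.1 a3).2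
  replace a4 := (mem_filter.1 a4).2
  have a5 := congrFun₂ hA s t
  simp only [mul_apply, transpose_apply, sum_mul] at a5
  rw [sum_comm, ← Fintype.sum_prod_type', sum_eq_single (⟨a, ha⟩, ⟨c, hc⟩)
    (fun x _ hx => ?_) (by simp), SimpleGraph.adjMatrix_apply, SimpleGraph.adjMatrix_apply,
    if_pos (show ((gr ω).induce W).Adj ⟨a, ha⟩ ⟨c, hc⟩ from gr_adj.2 ⟨a2, fun e => a4 (hd _ (by
      subst e; exact a3))⟩), mul_one] at a5
  · split_ifs at a5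
    · nlinarith [hs ⟨a, ha⟩, ht ⟨c, hc⟩, sq_nonneg (U ⟨a, ha⟩ s - U ⟨c, hc⟩ t)]
    · exact mul_ne_zero a3 a4 a5.symm
  · by_contra hn
    obtain ⟨b1, b2⟩ := mul_ne_zero_iff.1 hn
    obtain ⟨b1, b3⟩ := mul_ne_zero_iff.1 b1
    have b4 : ((gr ω).induce W).Adj x.1 x.2 := by simpa using b3
    have b5 : s(x.1.1, x.2.1) = s(a, c) := mem_singleton.1 (he ▸ mem_filter.2 ⟨mem_cross.2
      ⟨_, coe_mem_up.2 (by simpa using b1), _, coe_mem_up.2 (by simpa using b2), rfl⟩,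
      (gr_adj.1 b4).1⟩)
    rcases Sym2.eq_iff.1 b5 with ⟨rfl, rfl⟩ | ⟨rfl, rfl⟩
    exacts [hx rfl, a4 (hd _ b1)]

open Classical in
theorem coarse_rows {W : Set V} {H : SimpleGraph W} {U : Matrix W W ℝ} (hU : Uᵀ * U = 1)
    (hA : H.adjMatrix ℝ = Uᵀ * ((gr ω).induce W).adjMatrix ℝ * U) {θ x : ℝ} (h0 : 0 < θ) {m : ℕ}
    (hB : ¬EvB' ⌊1 / θ ^ 2⌋₊ m ω) (hm : ((m + m) * ⌊1 / θ ^ 2⌋₊ * ⌊1 / θ ^ 2⌋₊ : ℕ) ≤ x)
    {I : Finset W} (hI : 2 * x ≤ I.card) (h : ∀ t ∈ I, ∀ i, U i t = 0 ∨ θ ≤ |U i t|) :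
    ∃ T : Finset W, x ≤ T.card ∧ ∀ t ∈ T, ∀ j, ∃ z : ℤ, (z : ℝ) = U t j := by
  have a0 := card_filter_add_card_filter_not (s := I) fun t => ∀ i, U i t ^ 2 < 1
  set I₁ := I.filter fun t => ∀ i, U i t ^ 2 < 1
  set I₂ := I.filter fun t => ¬∀ i, U i t ^ 2 < 1
  rcases le_total x I₂.card with a | a
  · have a1 : ∀ t : I₂, ∃ i, 1 ≤ U i t ^ 2 := fun t => by
      simpa using (mem_filter.1 t.2).2
    choose r hr using a1
    have a2 := fun t => eq_zero_of_sq (sum_row_sq hU (r t)) (hr t)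
    refine ⟨univ.image r, ?_, fun v hv j => ?_⟩
    · rwa [card_image_of_injective _ fun s t e => ?_, card_univ, Fintype.card_coe]
      by_contra hn
      have := hr s
      rw [e, (a2 t).2 s fun e => hn (Subtype.ext e)] at this
      norm_num at this
    · obtain ⟨t, -, rfl⟩ := mem_image.1 hv
      by_cases hj : j = t
      · rcases sq_eq_one_iff.1 (a2 t).1 with e | e
        exacts [⟨1, by simp [hj, e]⟩, ⟨-1, by simp [hj, e]⟩]
      · exact ⟨0, by simp [(a2 t).2 j hj]⟩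
  obtain ⟨J, j1, j2, j3⟩ := greedy I₁ (fun t => univ.filter fun i => U i t ≠ 0) (b := ⌊1 / θ ^ 2⌋₊)
    (fun t _ => by
      obtain ⟨i, -, hi⟩ := exists_ne_zero_of_sum_ne_zero ((sum_col_sq hU t).trans_ne one_ne_zero)
      exact ⟨i, by simpa using hi⟩)
    (fun t ht => card_le_of_sq (sum_col_sq hU t) h0 fun i hi =>
      (h t (mem_filter.1 ht).1 i).resolve_left (mem_filter.1 hi).2)
    fun i => card_le_of_sq (sum_row_sq hU i) h0 fun t ht =>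
      (h t (mem_filter.1 (mem_filter.1 ht).1).1 i).resolve_left (mem_filter.1 (mem_filter.1 ht).2).2
  have a1 : x ≤ I₁.card := by
    have : (I₁.card : ℝ) + I₂.card = I.card := by exact_mod_cast a0
    linarith
  rcases Nat.eq_zero_or_pos ⌊1 / θ ^ 2⌋₊ with hb | hb
  · exact ⟨∅, a1.trans (Nat.cast_le.2 (j3.trans (by simp only [hb, mul_zero, zero_le]))), by simp⟩
  obtain ⟨f⟩ := Function.Embedding.nonempty_of_card_le (α := Fin m ⊕ Fin m) (β := J) (by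
    simpa using le_of_mul_le_mul_right (le_of_mul_le_mul_right
      ((Nat.cast_le.1 (hm.trans a1)).trans j3) hb) hb)
  let B : Fin m ⊕ Fin m → Finset V := fun k => up (univ.filter fun i => U i (f k) ≠ 0)
  have b1 : ∀ k l v, v ∈ B k → v ∈ B l → k = l := fun k l v h1 h2 => f.injective (Subtype.ext
    (j2 _ (f k).2 _ (f l).2 _ (mem_up.1 h1).2 (mem_up.1 h2).2))
  have b2 : ∀ k, (B k).Nonempty := fun k => by
    obtain ⟨i, -, hi⟩ := exists_ne_zero_of_sum_ne_zero ((sum_col_sq hU (f k)).trans_ne one_ne_zero)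
    exact ⟨i, coe_mem_up.2 (by simpa using hi)⟩
  have b3 : ∀ k, (B k).card ≤ ⌊1 / θ ^ 2⌋₊ := fun k => (card_up _).trans_le
    (card_le_of_sq (sum_col_sq hU _) h0 fun i hi =>
      (h _ (mem_filter.1 (j1 (f k).2)).1 i).resolve_left (mem_filter.1 hi).2)
  refine (hB ⟨fun i => B (.inl i), fun i => B (.inr i), ⟨fun i => ⟨b2 _, b2 _⟩,
    fun i => ⟨b3 _, b3 _⟩, fun i j v h1 h2 => Sum.inl_injective (b1 _ _ v h1 h2),
    fun i j v h1 h2 => Sum.inr_injective (b1 _ _ v h1 h2),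
    fun i j v h1 h2 => Sum.inl_ne_inr (b1 _ _ v h1 h2)⟩, fun i j => not_one hA
      (mem_filter.1 (j1 (f _).2)).2 (mem_filter.1 (j1 (f _).2)).2 fun v h1 => ?_⟩).elim
  by_contra h2
  exact Sum.inl_ne_inr (b1 (.inl i) (.inr j) v (coe_mem_up.2 (by simpa using h1))
    (coe_mem_up.2 (by simpa using h2)))

theorem rigid_step {δ η ε θ : ℝ} {q m : ℕ} {W : Set V} (hW : Core (gr ω) W)
    (hR : ∀ H, IsSwitching ((gr ω).induce W) H (δ * Fintype.card V) →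
      Nonempty (H ≃g (gr ω).induce W)) (hT : ¬EvT η ω)
    (e1 : 3 * η ≤ δ) (e2 : η ≤ ε) (e3 : (q : ℝ) ^ 3 ≤ η * Fintype.card V) (h0 : 0 < θ)
    (hB : ¬EvB' ⌊1 / θ ^ 2⌋₊ m ω)
    (hm : ((m + m) * ⌊1 / θ ^ 2⌋₊ * ⌊1 / θ ^ 2⌋₊ : ℕ) ≤ ε * Fintype.card V)
    (hc : ∀ (M : Type) [AddCommGroup M] [Module ℤ[X] M] (ψ : V → M) (D T : Finset V),
      (∀ v ∉ D, (X : ℤ[X]) • ψ v = ∑ w ∈ nbh ω v, ψ w) → (∀ t ∈ T, ψ t = 0) →
      (D.card : ℝ) ≤ η * Fintype.card V → ε * Fintype.card V ≤ T.card →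
      ∃ (E : Finset V) (N : Submodule ℤ[X] M), (E.card : ℝ) ≤ η * Fintype.card V ∧ Finite N ∧
        Nat.card N ≤ q ∧ ∀ v ∉ E, ψ v ∈ N) {H : SimpleGraph W}
    (h : IsCoarse ((gr ω).induce W) H θ ((1 - 3 * ε) * Fintype.card V)) :
    Nonempty (H ≃g (gr ω).induce W) := by
  classical
  obtain ⟨S, U, h1, hU, h2, hA⟩ := IsCoarse.elim.1 h
  have n0 : (0 : ℝ) ≤ Fintype.card V := Nat.cast_nonneg _
  have q0 : (0 : ℝ) ≤ q ^ 3 := by positivity
  by_cases hs : (Fintype.card W : ℝ) ≤ δ * Fintype.card V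
  · exact hR H (IsSwitching.intro.2 ⟨univ, U, hs, hU, by simp, hA⟩)
  have hD := core_big hW hT (by nlinarith)
  obtain ⟨T, t1, t2⟩ := coarse_rows hU hA h0 hB hm (I := Sᶜ) (by
    rw [card_compl, Nat.cast_sub (card_le_univ _), card_up, card_univ] at hD
    rw [card_compl, Nat.cast_sub (card_le_univ _)]
    nlinarith) fun t ht => h2 t (mem_compl.1 ht)
  exact rigid_rows hR hT e1 e3 hD hc hU hA t1 t2

end Pool.Agent.P.MP_f57657_co
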