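import Pool.Agent.P.MP_f57657_co.W.Row

/-! Three rare expansion events. -/

open Finset

namespace Pool.Agent.P.MP_f57657_co

variable {V : Type*} [Fintype V] [DecidableEq V] {p : ℝ}

/-- Two large disjoint sets, every vertex of the second with at most one neighbour in the first. -/
def EvT (η : ℝ) (ω : Sym2 V → Bool) : Prop :=
  ∃ Y Z : Finset V, η * Fintype.card V ≤ Y.card ∧ η * Fintype.card V ≤ Z.card ∧
    (∀ t ∈ Z, t ∉ Y) ∧ ∀ t ∈ Z, (row ω Y t).card ≤ 1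

/-- A small set with a large neighbourhood. -/
def EvN (p γ η : ℝ) (ω : Sym2 V → Bool) : Prop :=
  ∃ Y Z : Finset V, Y.card * p ≤ γ ∧ η * Fintype.card V ≤ Z.card ∧
    (∀ t ∈ Z, t ∉ Y) ∧ ∀ t ∈ Z, (row ω Y t).Nonempty

/-- A set with few private neighbours. -/
def EvU (p γ K η : ℝ) (ω : Sym2 V → Bool) : Prop :=
  ∃ Y R : Finset V, γ ≤ Y.card * p ∧ Y.card * p ≤ K ∧ Y ⊆ R ∧ R.card ≤ η * Fintype.card V ∧
    ∀ t ∉ R, (row ω Y t).card ≠ 1

theorem Pr_two (h0 : 0 ≤ p) (h1 : p ≤ 1) {σ τ : Type*} (I : Finset σ) (J : Finset τ)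
    {A : (Sym2 V → Bool) → Prop} (B : σ → τ → (Sym2 V → Bool) → Prop) {c a b : ℝ}
    (hc : 0 ≤ c) (hA : ∀ ω, A ω → ∃ Y ∈ I, ∃ Z ∈ J, B Y Z ω)
    (hB : ∀ Y ∈ I, ∀ Z ∈ J, Pr p (B Y Z) ≤ c) (hI : (I.card : ℝ) ≤ a) (hJ : (J.card : ℝ) ≤ b) :
    Pr p A ≤ a * (b * c) := by
  refine (Pr_union h0 h1 I (fun Y ω => ∃ Z ∈ J, B Y Z ω) hA).trans
    ((sum_le_card_nsmul _ _ (b * c) fun Y hY => (Pr_union h0 h1 J _ fun ω h => h).trans
      ((sum_le_card_nsmul _ _ c (hB Y hY)).trans ?_)).trans ?_)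
  · rw [nsmul_eq_mul]
    gcongr
  · rw [nsmul_eq_mul]
    have : 0 ≤ b := (Nat.cast_nonneg _).trans hJ
    gcongr

theorem Pr_if (h0 : 0 ≤ p) (h1 : p ≤ 1) {ι : Type*} [Fintype ι] [DecidableEq ι] {a : Prop}
    {A : (ι → Bool) → Prop} {c : ℝ} (hc : 0 ≤ c) (h : a → Pr p A ≤ c) :
    Pr p (fun ω => a ∧ A ω) ≤ c := by
  by_cases ha : a
  · exact (Pr_mono h0 h1 fun _ => And.right).trans (h ha)
  · rw [Pr_false fun ω h => ha h.1]
    exact hc

theorem exp_pow_le {a b : ℝ} {k : ℕ} (h : b ≤ a * k) : Real.exp (-a) ^ k ≤ Real.exp (-b) := by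
  rw [← Real.exp_nat_mul, Real.exp_le_exp]
  linarith

theorem one_sub_pow_le {x : ℝ} (h : x ≤ 1) (k : ℕ) : (1 - x) ^ k ≤ Real.exp (-(k * x)) := by
  simpa [sub_eq_add_neg] using one_add_pow_le (b := -x) (by linarith) k

theorem big_pairs {η : ℝ} (hη : 0 < η) {n : ℕ} (h0 : 0 ≤ p) (h1 : p ≤ 1)
    {Q : Finset (Fin n) → Prop} {A : Finset (Fin n) → Prop}
    (h : ∀ Y, Q Y → rP p Y A ≤ Real.exp (-(3 / η))) :
    Pr p (fun ω : Sym2 (Fin n) → Bool => ∃ Y Z : Finset (Fin n), Q Y ∧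
      η * Fintype.card (Fin n) ≤ Z.card ∧ (∀ t ∈ Z, t ∉ Y) ∧ ∀ t ∈ Z, A (row ω Y t)) ≤
      1 * Real.exp (-(1 * n)) := by
  have hs := card_sets (V := Fin n)
  rw [Fintype.card_fin] at hs ⊢
  refine (Pr_two h0 h1 univ univ (fun Y Z ω => (Q Y ∧ η * n ≤ Z.card ∧ ∀ t ∈ Z, t ∉ Y) ∧
    ∀ t ∈ Z, A (row ω Y t)) (c := Real.exp (-(3 * n))) (Real.exp_pos _).le
    (fun ω ⟨Y, Z, a, b, c, d⟩ => ⟨Y, mem_univ _, Z, mem_univ _, ⟨a, b, c⟩, d⟩)
    (fun Y _ Z _ => Pr_if h0 h1 (Real.exp_pos _).le fun ⟨a, b, c⟩ =>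
      (Pr_rows h0 h1 c (h Y a)).trans (exp_pow_le ?_)) hs hs).trans (le_of_eq ?_)
  · rw [← Real.exp_add, ← Real.exp_add, one_mul]
    congr 1
    ring
  · rw [div_mul_eq_mul_div, le_div_iff₀ hη]
    linarith

theorem rare_T {η : ℝ} (hη : 0 < η) : Rare fun n _ ω => EvT (V := Fin n) η ω := by
  refine Rare.of_exp (2 / η * (3 / η + 1)) 1 1 one_pos.le one_pos fun n p a b c =>
    big_pairs hη b.le (by linarith) (A := fun a => a.card ≤ 1) fun Y hY => ?_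
  refine (rE_mono b.le (by linarith) (F' := fun a => 2 * (1 / 2) ^ a.card) fun a _ => ?_).trans ?_
  · split_ifs with h
    · rcases Nat.le_one_iff_eq_zero_or_eq_one.1 h with h | h <;> norm_num [h]
    · positivity
  · rw [rE_mul, rE_pow, show p * (1 / 2) + (1 - p) = 1 - p / 2 by ring]
    have h1 := one_sub_pow_le (show p / 2 ≤ 1 by linarith) Y.card
    have h2 : 3 / η + 1 ≤ Y.card * (p / 2) := by
      rw [Fintype.card_fin] at hY
      rw [div_mul_eq_mul_div, div_le_iff₀ hη] at a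
      nlinarith
    have h3 : Real.exp (-(Y.card * (p / 2))) ≤ Real.exp (-(3 / η)) * Real.exp (-1) := by
      rw [← Real.exp_add, Real.exp_le_exp]
      linarith
    have h4 : Real.exp (-1) ≤ 1 / 2 := by
      rw [Real.exp_neg, one_div]
      exact inv_anti₀ two_pos (by linarith [Real.add_one_le_exp 1])
    nlinarith [Real.exp_pos (-(3 / η))]

theorem rare_N {η : ℝ} (hη : 0 < η) :
    ∃ γ, 0 < γ ∧ γ ≤ 1 ∧ Rare fun n p ω => EvN (V := Fin n) p γ η ω := by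
  refine ⟨Real.exp (-(3 / η)), Real.exp_pos _, Real.exp_le_one_iff.2 (by
    rw [neg_nonpos]; positivity), Rare.of_exp 0 1 1 one_pos.le one_pos fun n p _ b c =>
    big_pairs hη b.le (by linarith) (A := fun a => a.Nonempty) fun Y hY => le_trans ?_ hY⟩
  have h1 := rE_pow (p := p) Y 0
  have h2 := rE_const (p := p) Y 1
  have h3 : rP p Y (fun a => a.Nonempty) + rE p Y (fun a => 0 ^ a.card) = rE p Y fun _ => 1 := by
    simp only [rP, rE, ← sum_add_distrib]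
    refine sum_congr rfl fun a _ => ?_
    rcases a.eq_empty_or_nonempty with h | h
    · simp [h]
    · simp [h, h.card_pos.ne']
  have h4 := one_add_mul_le_pow (show -2 ≤ -p by linarith) Y.card
  rw [mul_zero, zero_add, sub_eq_add_neg] at h1
  linarith

theorem rP_ne_one (h0 : 0 ≤ p) (h1 : p ≤ 1 / 2) {γ K : ℝ} (hγ : 0 < γ) {Y : Finset V}
    (hw : γ ≤ Y.card * p) (hw' : Y.card * p ≤ K) :
    rP p Y (fun a => a.card ≠ 1) ≤ Real.exp (-(γ * Real.exp (-(2 * K)))) := by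
  obtain ⟨t, -⟩ : Y.Nonempty := by
    rw [nonempty_iff_ne_empty]
    rintro rfl
    simp at hw
    linarith
  have e1 : ∀ N : ℕ, (if N ≠ 1 then (1 : ℝ) else 0) ≤ 1 - N * (0 : ℝ) ^ (N - 1) := by
    intro N
    rcases N with _ | _ | N <;> simp
  rw [rP, ← Ex_row Y t]
  refine (Ex_mono h0 (by linarith) fun ω => by convert e1 (row ω Y t).card).trans ?_
  simp only [card_row]
  rw [Ex_sub, Ex_const, Ex_nb_mul, card_star, mul_zero, add_zero]
  have a1 : Real.exp (-(2 * p)) ≤ 1 - p := by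
    rw [Real.exp_neg, inv_le_iff_one_le_mul₀ (Real.exp_pos _)]
    nlinarith [Real.add_one_le_exp (2 * p)]
  have a2 : Real.exp (-(2 * K)) ≤ (1 - p) ^ Y.card := by
    refine le_trans ?_ (pow_le_pow_left₀ (Real.exp_pos _).le a1 _)
    rw [← Real.exp_nat_mul, Real.exp_le_exp]
    linarith
  have a3 : (1 - p) ^ Y.card ≤ (1 - p) ^ (Y.card - 1) :=
    pow_le_pow_of_le_one (by linarith) (by linarith) (Nat.sub_le _ _)
  have a4 := mul_le_mul hw (a2.trans a3) (Real.exp_pos _).le (by positivity)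
  linarith [Real.add_one_le_exp (-(γ * Real.exp (-(2 * K))))]

theorem rare_U {γ : ℝ} (hγ : 0 < γ) (K : ℝ) :
    ∃ η, 0 < η ∧ Rare fun n p ω => EvU (V := Fin n) p γ K η ω := by
  obtain ⟨κ, hκ⟩ : ∃ κ, κ = γ * Real.exp (-(2 * K)) := ⟨_, rfl⟩
  have k0 : 0 < κ := by rw [hκ]; positivity
  obtain ⟨η, e0, e1⟩ := few (c := κ / 8) (by positivity)
  refine ⟨min η (1 / 2), by positivity, Rare.of_exp 0 1 (κ / 4) one_pos.le (by positivity)
    fun n p _ b c => ?_⟩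
  have n0 : (0 : ℝ) ≤ n := n.cast_nonneg
  refine (Pr_two b.le (by linarith) _ _ (fun Y R ω => (γ ≤ Y.card * p ∧ Y.card * p ≤ K ∧ Y ⊆ R ∧
    (R.card : ℝ) ≤ 1 / 2 * n) ∧ ∀ t ∈ Rᶜ, (row ω Y t).card ≠ 1) (c := Real.exp (-(κ / 2 * n)))
    (Real.exp_pos _).le (fun ω ⟨Y, R, a1, a2, a3, a4, a5⟩ => ?_)
    (fun Y _ R _ => Pr_if b.le (by linarith) (Real.exp_pos _).le fun ⟨a1, a2, a3, a4⟩ =>
      (Pr_rows b.le (by linarith) (fun t ht h => mem_compl.1 ht (a3 h))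
        (rP_ne_one b.le c hγ a1 a2)).trans (exp_pow_le ?_)) (e1 n) (e1 n)).trans (le_of_eq ?_)
  · rw [← Real.exp_add, ← Real.exp_add, one_mul]
    congr 1
    ring
  · rw [Fintype.card_fin] at a4
    have b1 : (R.card : ℝ) ≤ η * n := a4.trans (by gcongr; exact min_le_left _ _)
    have b2 : (Y.card : ℝ) ≤ R.card := by exact_mod_cast card_le_card a3
    exact ⟨Y, by simpa using b2.trans b1, R, by simpa using b1, ⟨a1, a2, a3, a4.trans
      (by gcongr; exact min_le_right _ _)⟩, fun t ht => a5 t (mem_compl.1 ht)⟩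
  · rw [← hκ, card_compl, Nat.cast_sub (card_le_univ _), Fintype.card_fin]
    nlinarith

end Pool.Agent.P.MP_f57657_co
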