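import Pool.Agent.P.MP_f57657_co.W.Ev

/-! First moment over labellings by a small group. -/

open Finset

namespace Pool.Agent.P.MP_f57657_co

variable {V : Type*} [Fintype V] [DecidableEq V] {p : ℝ}

/-- The neighbours of `t`. -/
def nbh (ω : Sym2 V → Bool) (t : V) : Finset V := row ω (univ.erase t) t

theorem mem_nbh {ω : Sym2 V → Bool} {t u : V} : u ∈ nbh ω t ↔ (gr ω).Adj t u := by
  rw [nbh, mem_row (notMem_erase _ _), mem_erase]
  exact ⟨And.right, fun h => ⟨⟨h.ne', mem_univ _⟩, h⟩⟩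

theorem sum_nbh {A : Type*} [AddCommMonoid A] (ω : Sym2 V → Bool) {Y : Finset V} {t : V}
    (ht : t ∉ Y) (φ : V → A) : ∑ w ∈ nbh ω t, φ w =
      ∑ w ∈ row ω Y t, φ w + ∑ w ∈ row ω (univ.erase t \ Y) t, φ w := by
  rw [row, row, ← sum_union (disjoint_filter_filter disjoint_sdiff), ← filter_union,
    union_sdiff_of_subset fun u hu => mem_erase.2 ⟨fun e : u = t => ht (e ▸ hu), mem_univ _⟩]
  rfl

theorem sum_nbh_mem {A : Type*} [AddCommGroup A] (ω : Sym2 V → Bool) {Y : Finset V} {t : V}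
    (ht : t ∉ Y) {φ : V → A} {H : AddSubgroup A} (h : ∀ w ∉ Y, φ w ∈ H) :
    ∑ w ∈ nbh ω t, φ w - ∑ w ∈ row ω Y t, φ w ∈ H := by
  rw [sum_nbh ω ht, add_sub_cancel_left]
  exact sum_mem fun w hw => h w (mem_sdiff.1 (mem_filter.1 hw).1).2

theorem card_lists {A : Type*} [Fintype A] [AddCommGroup A] (D : Finset V) (L : (V → A) → V → Set A)
    (hL : ∀ φ φ', (∀ w ∈ D, φ w = φ' w) → L φ = L φ') {l : V → ℝ}
    (hl : ∀ φ, ∀ t ∉ D, ((L φ t).ncard : ℝ) ≤ l t) :
    ({φ : V → A | ∀ t ∉ D, φ t ∈ L φ t}.ncard : ℝ) ≤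
      (Fintype.card A : ℝ) ^ D.card * ∏ t ∈ Dᶜ, l t := by
  classical
  have h1 : {φ : V → A | ∀ t ∉ D, φ t ∈ L φ t}.toFinset ⊆
      (Fintype.piFinset fun w => if w ∈ D then univ else {0}).biUnion fun ψ =>
        Fintype.piFinset fun t => if t ∈ D then {ψ t} else (L ψ t).toFinset := by
    intro φ h
    refine mem_biUnion.2 ⟨fun w => if w ∈ D then φ w else 0, Fintype.mem_piFinset.2 fun w => ?_,
      Fintype.mem_piFinset.2 fun w => ?_⟩
    · split_ifs <;> simp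
    · rw [hL _ φ fun w hw => if_pos hw]
      split_ifs with a
      · simp [a]
      · exact Set.mem_toFinset.2 ((Set.mem_toFinset.1 h) w a)
  rw [Set.ncard_eq_toFinset_card']
  refine le_trans (Nat.cast_le.2 ((card_le_card h1).trans card_biUnion_le)) ?_
  rw [Nat.cast_sum]
  refine (sum_le_card_nsmul _ _ (∏ t ∈ Dᶜ, l t) fun ψ _ => ?_).trans (le_of_eq ?_)
  · rw [Fintype.card_piFinset, ← prod_mul_prod_compl D, prod_eq_one fun t ht => by simp [ht],
      one_mul, Nat.cast_prod]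
    refine prod_le_prod (fun _ _ => Nat.cast_nonneg _) fun t ht => ?_
    rw [if_neg (mem_compl.1 ht), ← Set.ncard_eq_toFinset_card']
    exact hl ψ t (mem_compl.1 ht)
  · rw [Fintype.card_piFinset, ← prod_mul_prod_compl D, prod_eq_one (s := Dᶜ) fun t ht => by
      simp [mem_compl.1 ht], prod_congr rfl (g := fun _ => Fintype.card A) fun t ht => by simp [ht]]
    simp

variable {A : Type*} [AddCommGroup A]

open Classical in
/-- The labels in `H` on `D` make every sum unlikely. -/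
def Rich (p : ℝ) (H : AddSubgroup A) (D : Finset V) (φ : V → A) : Prop :=
  ∀ g, rP p (D.filter fun w => φ w ∈ H) (fun a => ∑ w ∈ a, φ w = g) ≤ 3 / 2 / Nat.card H

open Classical in
theorem Pr_F0 [Fintype A] (h0 : 0 ≤ p) (h1 : p ≤ 1) (H : AddSubgroup A) (X : A → A) (D : Finset V)
    (L : (Sym2 V → Bool) → (V → A) → V → Set A)
    (hL : ∀ ω φ φ', (∀ w ∈ D, φ w = φ' w) → L ω φ = L ω φ') {l : V → ℝ}
    (hl : ∀ ω φ, ∀ t ∉ D, ((L ω φ t).ncard : ℝ) ≤ l t)
    (hm : ∀ φ t ω ω', ∀ s ∉ D, L (mix (star (D.filter fun w => φ w ∈ H) t) ω ω') φ s = L ω φ s) :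
    Pr p (fun ω => ∃ φ : V → A, (Rich p H D φ ∧ ∀ t ∉ D, φ t ∈ L ω φ t) ∧
      ∀ t ∉ D, ∑ w ∈ nbh ω t, φ w = X (φ t)) ≤
      (Fintype.card A : ℝ) ^ D.card * ∏ t ∈ Dᶜ, (3 / 2 / Nat.card H * l t) := by
  have hD : ∀ (φ : V → A), ∀ t ∈ Dᶜ, t ∉ D.filter fun w => φ w ∈ H :=
    fun φ t ht h => mem_compl.1 ht (mem_filter.1 h).1
  refine le_trans (Pr_mono h0 h1 fun ω ⟨φ, a, b⟩ => ⟨φ, a, fun t ht => ?_⟩)
    ((fm h0 h1 Dᶜ (fun φ : V → A => D.filter fun w => φ w ∈ H)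
      (fun φ ω => Rich p H D φ ∧ ∀ t ∉ D, φ t ∈ L ω φ t)
      (fun φ t ω a => ∑ w ∈ a, φ w + ∑ w ∈ row ω (univ.erase t \ D.filter fun w => φ w ∈ H) t,
        φ w = X (φ t)) (c := 3 / 2 / Nat.card H) (by positivity) hD
      (fun φ t _ ω ω' => and_congr_right' (forall₂_congr fun s hs => by rw [hm φ t ω ω' s hs]))
      (fun φ t _ s hs ω ω' => by rw [row_mix_out (hD φ s hs) fun u hu => (mem_sdiff.1 hu).2])
      (fun φ t _ ω h => le_trans (rP_mono h0 h1 fun a _ e => eq_sub_of_add_eq e) (h.1 _))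
      fun ω => le_trans (Nat.cast_le.2 (Set.ncard_le_ncard fun φ h => h.2))
        (card_lists D (L ω) (hL ω) (hl ω))).trans (le_of_eq ?_))
  · rw [prod_mul_distrib, prod_const]
    ring
  · rw [← sum_nbh ω (hD φ t ht), b t (mem_compl.1 ht)]

/-- A labelling by a group that solves the row equations off a small set. -/
def EvF (H : AddSubgroup A) (X : A → A) (p η ε : ℝ) (q : ℕ) (ω : Sym2 V → Bool) : Prop :=
  ∃ (D : Finset V) (φ : V → A), D.card ≤ η * Fintype.card V ∧ Rich p H D φ ∧ (∀ t ∉ D, φ t ∈ H) ∧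
    (∀ t ∉ D, ∑ w ∈ nbh ω t, φ w = X (φ t)) ∧
    ((∀ s, 2 * {h | h ∈ H ∧ X h - s ∈ H}.ncard ≤ Nat.card H) ∨
      (q ≤ Nat.card H ∧ ∃ T : Finset V, ε * Fintype.card V ≤ T.card ∧ ∀ t ∈ T, φ t = 0))

theorem rare_F {ε : ℝ} (hε : 0 < ε) : ∃ q : ℕ, 1 ≤ q ∧ ∀ m : ℕ, ∃ η, 0 < η ∧
    ∀ (A : Type) [AddCommGroup A] [Fintype A], Fintype.card A ≤ m →
      ∀ (H : AddSubgroup A) (X : A → A), Rare fun n p ω => EvF (V := Fin n) H X p η ε q ω := by
  classical
  obtain ⟨η, e0, e1⟩ := few (c := 1 / 32) (by positivity)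
  refine ⟨⌈Real.exp (8 / ε)⌉₊, Nat.ceil_pos.2 (Real.exp_pos _), fun m =>
    ⟨min (min η (ε / 2)) (1 / (32 * (m + 1))), by positivity,
    fun A _ _ hA H X => Rare.of_exp 0 2 (1 / 16) two_pos.le (by positivity) fun n p _ b c => ?_⟩⟩
  have p1 : p ≤ 1 := by linarith
  have n0 : (0 : ℝ) ≤ n := n.cast_nonneg
  have m0 : (0 : ℝ) ≤ m := m.cast_nonneg
  have hH : (0 : ℝ) < Nat.card H := by exact_mod_cast Nat.card_pos
  have hs := card_sets (V := Fin n)
  rw [Fintype.card_fin] at hs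
  let sm : Finset (Fin n) → Prop := fun D =>
    (D.card : ℝ) ≤ ε / 2 * n ∧ (D.card : ℝ) * (32 * (m + 1)) ≤ n
  have a0 : ∀ D, sm D → (Fintype.card A : ℝ) ^ D.card ≤ Real.exp (1 / 32 * n) := fun D hD => by
    refine le_trans (pow_le_pow_left₀ (Nat.cast_nonneg _) (show _ ≤ 1 + (m : ℝ) by
      have : (Fintype.card A : ℝ) ≤ m := by exact_mod_cast hA
      linarith) _) ((one_add_pow_le (by linarith) _).trans (Real.exp_le_exp.2 ?_))
    have : (0 : ℝ) ≤ D.card := Nat.cast_nonneg _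
    nlinarith [hD.2]
  let E1 : Finset (Fin n) → (Sym2 (Fin n) → Bool) → Prop := fun D ω =>
    (sm D ∧ ∀ s, 2 * {h | h ∈ H ∧ X h - s ∈ H}.ncard ≤ Nat.card H) ∧ ∃ φ : Fin n → A,
      (Rich p H D φ ∧ ∀ t ∉ D, φ t ∈ {h | h ∈ H ∧
        X h - ∑ w ∈ row ω (D.filter fun w => φ w ∉ H) t, φ w ∈ H}) ∧
      ∀ t ∉ D, ∑ w ∈ nbh ω t, φ w = X (φ t)
  let E2 : Finset (Fin n) → Finset (Fin n) → (Sym2 (Fin n) → Bool) → Prop := fun D T ω =>
    (sm D ∧ ε * n ≤ T.card ∧ Real.exp (8 / ε) ≤ Nat.card H) ∧ ∃ φ : Fin n → A,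
      (Rich p H D φ ∧ ∀ t ∉ D, φ t ∈ if t ∈ T then ({0} : Set A) else H) ∧
      ∀ t ∉ D, ∑ w ∈ nbh ω t, φ w = X (φ t)
  have a1 : ∀ D, Pr p (E1 D) ≤ Real.exp (1 / 32 * n) * Real.exp (-(1 / 8 * n)) := fun D =>
    Pr_if b.le p1 (by positivity) fun ⟨h1, h2⟩ => by
      refine (Pr_F0 b.le p1 H X D (fun ω φ t => {h | h ∈ H ∧
        X h - ∑ w ∈ row ω (D.filter fun w => φ w ∉ H) t, φ w ∈ H}) (l := fun _ => Nat.card H / 2)
        (fun ω φ φ' e => funext fun t => ?_) (fun ω φ t _ => ?_) fun φ t ω ω' s hs => ?_).trans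
        (mul_le_mul (a0 D h1) ?_ (by positivity) (by positivity))
      · rw [filter_congr (q := fun w => φ' w ∉ H) fun w hw => by rw [e w hw],
          sum_congr (s₁ := row _ _ _) rfl fun w hw => e w (mem_filter.1 (mem_filter.1 hw).1).1]
      · rw [le_div_iff₀' two_pos]
        exact_mod_cast h2 _
      · rw [row_mix_out (Z := D.filter fun w => φ w ∉ H) (fun h => hs (mem_filter.1 h).1)
          fun u hu h => (mem_filter.1 hu).2 (mem_filter.1 h).2]
      · rw [prod_const, show 3 / 2 / (Nat.card H : ℝ) * (Nat.card H / 2) = 1 - 1 / 4 by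
          field_simp; norm_num]
        refine (one_sub_pow_le (by norm_num) _).trans (Real.exp_le_exp.2 ?_)
        rw [card_compl, Nat.cast_sub (card_le_univ _), Fintype.card_fin]
        have : (0 : ℝ) ≤ D.card := Nat.cast_nonneg _
        nlinarith [h1.2]
  have a2 : ∀ D T, Pr p (E2 D T) ≤ Real.exp (1 / 32 * n) * Real.exp (-(3 * n)) := fun D T =>
    Pr_if b.le p1 (by positivity) fun ⟨h1, h2, h3⟩ => by
      refine (Pr_F0 b.le p1 H X D (fun _ _ t => if t ∈ T then ({0} : Set A) else H)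
        (l := fun t => if t ∈ T then 1 else Nat.card H) (fun _ _ _ _ => rfl) (fun _ _ t _ => ?_)
        fun _ _ _ _ _ _ => rfl).trans (mul_le_mul (a0 D h1) ?_ (by positivity) (by positivity))
      · split_ifs
        · simp
        · exact_mod_cast (Nat.card_coe_set_eq _).ge
      · refine (prod_le_prod (g := fun t => Real.exp (1 - if t ∈ T then 8 / ε else 0))
          (fun _ _ => by positivity) fun t _ => ?_).trans ?_
        · have : 3 / 2 ≤ Real.exp 1 := by linarith [Real.add_one_le_exp 1]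
          split_ifs
          · rw [mul_one, Real.exp_sub]
            gcongr
          · rwa [div_mul_cancel₀ _ hH.ne', sub_zero]
        · rw [← Real.exp_sum, Real.exp_le_exp, sum_sub_distrib, ← sum_filter, sum_const, sum_const,
            nsmul_eq_mul, nsmul_eq_mul, mul_one]
          have b1 : ((Dᶜ).card : ℝ) ≤ n := by exact_mod_cast (card_le_univ _).trans (by simp)
          have b2 : (T.card : ℝ) ≤ (Dᶜ.filter (· ∈ T)).card + D.card := by
            exact_mod_cast (card_le_card fun t ht => by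
              by_cases h : t ∈ D <;> simp [h, ht]).trans (card_union_le _ _)
          have b3 : 4 * n ≤ ((Dᶜ.filter (· ∈ T)).card : ℝ) * (8 / ε) := by
            rw [← mul_div_assoc, le_div_iff₀ hε]
            linarith [h1.1]
          linarith
  set I := univ.filter fun R : Finset (Fin n) => (R.card : ℝ) ≤ η * n
  refine (Pr_mono b.le p1 (B := fun ω => (∃ D ∈ I, E1 D ω) ∨ ∃ D ∈ I, ∃ T ∈ univ, E2 D T ω)
    ?_).trans ((Pr_or b.le p1 _ _).trans ?_)
  · rintro ω ⟨D, φ, h1, h2, h3, h4, h5⟩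
    rw [Fintype.card_fin] at h1 h5
    have b1 : D ∈ I := mem_filter.2 ⟨mem_univ _, h1.trans (by
      gcongr; exact (min_le_left _ _).trans (min_le_left _ _))⟩
    have b2 : sm D := ⟨h1.trans (by gcongr; exact (min_le_left _ _).trans (min_le_right _ _)), by
      rw [← le_div_iff₀ (by positivity), div_eq_mul_one_div, mul_comm]
      exact h1.trans (by gcongr; exact min_le_right _ _)⟩
    rcases h5 with h5 | ⟨h5, T, h6, h7⟩
    · refine Or.inl ⟨D, b1, ⟨b2, h5⟩, φ, ⟨h2, fun t ht => ⟨h3 t ht, ?_⟩⟩, h4⟩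
      rw [← h4 t ht]
      refine sum_nbh_mem ω (fun h => ht (mem_filter.1 h).1) fun w hw => ?_
      by_contra h
      exact hw (mem_filter.2 ⟨by_contra fun a => h (h3 w a), h⟩)
    · refine Or.inr ⟨D, b1, T, mem_univ _, ⟨b2, h6, Nat.ceil_le.1 h5⟩, φ, ⟨h2, fun t ht => ?_⟩, h4⟩
      split_ifs with h
      exacts [h7 t h, h3 t ht]
  · rw [two_mul]
    refine add_le_add ((Pr_union b.le p1 I E1 fun _ h => h).trans
      ((sum_le_card_nsmul _ _ _ fun D _ => a1 D).trans ?_))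
      ((Pr_two b.le p1 I univ E2 (by positivity) (fun _ h => h) (fun D _ T _ => a2 D T)
        (e1 n) hs).trans ?_)
    · rw [nsmul_eq_mul]
      refine (mul_le_mul_of_nonneg_right (e1 n) (by positivity)).trans ?_
      simp only [← Real.exp_add, Real.exp_le_exp]
      linarith
    · simp only [← Real.exp_add, Real.exp_le_exp]
      linarith

theorem EvF.map {A' : Type*} [AddCommGroup A'] (e : A' ≃+ A) {H : AddSubgroup A} {X : A → A}
    {η ε : ℝ} {q : ℕ} {ω : Sym2 V → Bool} (h : EvF H X p η ε q ω) :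
    EvF (H.comap e.toAddMonoidHom) (fun a => e.symm (X (e a))) p η ε q ω := by
  obtain ⟨D, φ, h1, h2, h3, h4, h5⟩ := h
  have hc : Nat.card (H.comap e.toAddMonoidHom) = Nat.card H :=
    Nat.card_congr (e.toEquiv.subtypeEquiv fun _ => Iff.rfl)
  refine ⟨D, fun v => e.symm (φ v), h1, fun g => ?_, fun t ht => by simpa using h3 t ht,
    fun t ht => by simp [← map_sum, h4 t ht], ?_⟩
  · have := h2 (e g)
    simp only [← e.symm_apply_eq, map_sum] at this
    rw [hc]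
    convert this using 3
    simp
  · rw [hc]
    refine h5.imp (fun a s => le_trans (le_of_eq ?_) (a (e s))) (And.imp_right
      (Exists.imp fun T => And.imp_right fun a t ht => by simp [a t ht]))
    rw [← Set.ncard_image_of_injective _ e.injective]
    congr 2
    ext x
    obtain ⟨y, rfl⟩ := e.surjective x
    simp

/-- The same, for some group of order at most `m`. -/
def EvG (m : ℕ) (p η ε : ℝ) (q : ℕ) (ω : Sym2 V → Bool) : Prop :=
  ∃ (A : Type) (_ : AddCommGroup A) (_ : Finite A) (H : AddSubgroup A) (X : A → A),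
    Nat.card A ≤ m ∧ EvF H X p η ε q ω

theorem EvG.mono {m q : ℕ} {η η' ε : ℝ} {ω : Sym2 V → Bool} (h : EvG m p η ε q ω) (h' : η ≤ η') :
    EvG m p η' ε q ω := by
  obtain ⟨A, _, _, H, X, h1, D, φ, h2, h3⟩ := h
  exact ⟨A, _, ‹_›, H, X, h1, D, φ, h2.trans (by gcongr), h3⟩

theorem rare_G {ε : ℝ} (hε : 0 < ε) : ∃ q : ℕ, 1 ≤ q ∧ ∀ m : ℕ, ∃ η, 0 < η ∧
    Rare fun n p ω => EvG (V := Fin n) m p η ε q ω := by
  obtain ⟨q, hq, h⟩ := rare_F hε
  refine ⟨q, hq, fun m => ?_⟩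
  obtain ⟨η, h0, h⟩ := h m
  have : ∀ j, Finite (AddCommGroup (Fin j)) := fun j =>
    Finite.of_injective (fun g : AddCommGroup (Fin j) => g.add) fun _ _ h => AddCommGroup.ext h
  refine ⟨η, h0, (Rare.ex fun j : Fin (m + 1) => Rare.ex fun g : AddCommGroup (Fin j) =>
    Rare.ex fun H => Rare.ex fun X => @h (Fin j) g _ (by simpa using j.is_le) H X).mono 0 ?_⟩
  rintro n p ω - - - ⟨A, _, _, H, X, h1, h2⟩
  let e := (Finite.equivFin A).symm
  exact ⟨⟨_, Nat.lt_succ_of_le h1⟩, e.addCommGroup, _, _, @EvF.map _ _ _ _ _ _ _ e.addCommGroup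
    e.addEquiv _ _ _ _ _ _ h2⟩

end Pool.Agent.P.MP_f57657_co
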