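import Pool.Agent.P.MP_f57657_co.W.Row

/-! A Littlewood-Offord dichotomy in finite abelian groups. -/

open Finset

namespace Pool.Agent.P.MP_f57657_co

variable {V : Type*} [DecidableEq V] {p : ℝ}

theorem window {Γ : Type*} [AddCommGroup Γ] [Fintype Γ] (F : Γ → ℝ) (h0 : F 0 = 0)
    (hn : ∀ x, F (-x) = F x) (ha : ∀ x y, F (x + y) ≤ 2 * F x + 2 * F y) {τ : ℝ} (hτ : 0 ≤ τ)
    {L : ℕ} (hL : Fintype.card Γ < L * (univ.filter fun x => F x ≤ τ).card) :
    ∃ Ξ : AddSubgroup Γ, (∀ x, F x ≤ τ → x ∈ Ξ) ∧ ∀ x ∈ Ξ, F x ≤ 16 ^ L * τ := by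
  classical
  have h16 : ∀ {i j : ℕ}, i ≤ j → 16 ^ i * τ ≤ 16 ^ j * τ := fun h =>
    mul_le_mul_of_nonneg_right (pow_le_pow_right₀ (by norm_num) h) hτ
  by_cases h : ∀ j : Fin L, ∃ x, 16 ^ j.1 * τ < F x ∧ F x ≤ 4 * (16 ^ j.1 * τ)
  · choose x hx using h
    refine absurd ?_ hL.not_ge
    have key : ∀ (i j : Fin L) a b, F a ≤ τ → F b ≤ τ → x i + a = x j + b → ¬i < j := by
      intro i j a b h1 h2 e hij
      have e1 : x j = x i + (a + -b) := by rw [← add_assoc, e]; abel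
      have e2 := ha (x i) (a + -b)
      have e3 := ha a (-b)
      have e4 := h16 (Nat.succ_le_of_lt hij)
      have e5 := h16 (Nat.zero_le i.1)
      rw [← e1] at e2
      rw [hn] at e3
      rw [pow_succ] at e4
      linarith [(hx i).2, (hx j).1]
    have := card_le_card_of_injOn (s := (univ : Finset (Fin L)) ×ˢ univ.filter fun x => F x ≤ τ)
      (t := univ) (fun z => x z.1 + z.2) (fun _ _ => mem_coe.2 (mem_univ _)) ?_
    · simpa using this
    · rintro ⟨i, a⟩ h1 ⟨j, b⟩ h2 e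
      have h1' : F a ≤ τ := by simpa using h1
      have h2' : F b ≤ τ := by simpa using h2
      obtain rfl : i = j := le_antisymm (not_lt.1 (key j i b a h2' h1' e.symm))
        (not_lt.1 (key i j a b h1' h2' e))
      exact Prod.ext rfl (add_left_cancel e)
  · push Not at h
    obtain ⟨j, hj⟩ := h
    refine ⟨{ carrier := {x | F x ≤ 16 ^ j.1 * τ}
              zero_mem' := by simp only [Set.mem_ofPred_eq, h0]; positivity
              neg_mem' := fun {x} hx => by simpa only [Set.mem_ofPred_eq, hn] using hx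
              add_mem' := fun {x y} hx hy => ?_ }, fun x hx => ?_, fun x hx => ?_⟩
    · refine le_of_not_gt fun h => (hj _ h).not_ge ?_
      simp only [Set.mem_ofPred_eq] at hx hy
      linarith [ha x y]
    · exact hx.trans (by simpa using h16 (Nat.zero_le j.1))
    · exact le_trans hx (h16 j.2.le)

theorem norm_one_sub_sq {z : ℂ} (hz : ‖z‖ = 1) : ‖1 - z‖ ^ 2 = 2 - 2 * z.re := by
  have := Complex.sq_norm z
  rw [hz, Complex.normSq_apply] at this
  rw [Complex.sq_norm, Complex.normSq_apply]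
  simp
  linarith

theorem norm_mix (h0 : 0 ≤ p) (h1 : p ≤ 1 / 2) {z : ℂ} (hz : ‖z‖ = 1) :
    ‖(p : ℂ) * z + (1 - p)‖ ≤ Real.exp (-(p * ‖1 - z‖ ^ 2 / 4)) := by
  have e := Complex.sq_norm z
  rw [hz, Complex.normSq_apply] at e
  have e0 := sq_nonneg ‖1 - z‖
  have e1 := norm_one_sub_sq hz
  refine le_of_sq_le_sq ?_ (Real.exp_pos _).le
  rw [← Real.exp_nat_mul, Complex.sq_norm, Complex.normSq_apply]
  refine le_trans ?_ (Real.add_one_le_exp _)
  have e2 : (p * z.re + (1 - p)) * (p * z.re + (1 - p)) + p * z.im * (p * z.im) =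
      1 - p * (1 - p) * (2 - 2 * z.re) := by linear_combination (-p ^ 2) * e
  simp only [Complex.add_re, Complex.mul_re, Complex.ofReal_re, Complex.ofReal_im, Complex.sub_re,
    Complex.one_re, Complex.add_im, Complex.mul_im, Complex.sub_im, Complex.one_im, zero_mul,
    sub_zero, add_zero]
  rw [e2, ← e1]
  push_cast
  nlinarith [mul_nonneg (mul_nonneg h0 e0) (sub_nonneg.2 h1)]

variable {A : Type*} [AddCommGroup A] [Fintype A]

omit [Fintype A] in
theorem char_sum (χ : AddChar A ℂ) (a : Finset V) (y : V → A) :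
    χ (∑ w ∈ a, y w) = ∏ w ∈ a, χ (y w) := by
  induction a using Finset.induction_on with
  | empty => simp
  | insert w a h ih => rw [sum_insert h, prod_insert h, AddChar.map_add_eq_mul, ih]

theorem rP_fourier (h0 : 0 ≤ p) (h1 : p ≤ 1 / 2) (Y : Finset V) (y : V → A) (g : A) :
    Fintype.card A * rP p Y (fun a => ∑ w ∈ a, y w = g) ≤
      ∑ χ : AddChar A ℂ, Real.exp (-((p * ∑ w ∈ Y, ‖1 - χ (y w)‖ ^ 2) / 4)) := by
  classical
  have e : ((Fintype.card A * rP p Y (fun a => ∑ w ∈ a, y w = g) : ℝ) : ℂ) =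
      ∑ χ : AddChar A ℂ, χ (-g) * ∏ w ∈ Y, ((p : ℂ) * χ (y w) + (1 - p)) := by
    simp only [prod_add, mul_sum, rP, rE]
    rw [sum_comm]
    push_cast
    refine sum_congr rfl fun a _ => ?_
    have := AddChar.sum_apply_eq_ite (-g + ∑ w ∈ a, y w)
    simp only [AddChar.map_add_eq_mul, char_sum, neg_add_eq_zero, eq_comm (a := g)] at this
    simp only [prod_mul_distrib, prod_const]
    rw [sum_congr rfl (g := fun χ : AddChar A ℂ => ((p : ℂ) ^ a.card * (1 - p) ^ (Y \ a).card) *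
      (χ (-g) * ∏ w ∈ a, χ (y w))) fun χ _ => by ring, ← mul_sum, this]
    split_ifs <;> simp [mul_comm]
  refine (Complex.re_le_norm _).trans' (Complex.ofReal_re _).ge |>.trans ?_
  rw [e]
  refine (norm_sum_le _ _).trans (sum_le_sum fun χ _ => ?_)
  rw [norm_mul, AddChar.norm_apply, one_mul, norm_prod, mul_sum, sum_div, ← sum_neg_distrib,
    Real.exp_sum]
  exact prod_le_prod (fun _ _ => norm_nonneg _) fun w _ => norm_mix h0 h1 (χ.norm_apply _)

theorem exists_perp (Ξ : AddSubgroup (AddChar A ℂ)) : ∃ H : AddSubgroup A,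
    Nat.card H * Nat.card Ξ = Fintype.card A ∧ ∀ a ∉ H, ∑ᶠ χ : Ξ, (χ.1 a).re = 0 := by
  classical
  let H : AddSubgroup A :=
    { carrier := {a | ∀ χ ∈ Ξ, χ a = 1}
      zero_mem' := fun χ _ => χ.map_zero_eq_one
      add_mem' := fun ha hb χ h => by rw [AddChar.map_add_eq_mul, ha χ h, hb χ h, one_mul]
      neg_mem' := fun ha χ h => by rw [AddChar.map_neg_eq_inv, ha χ h, inv_one] }
  have h1 : ∀ a, ∑ χ : Ξ, χ.1 a = if a ∈ H then (Fintype.card Ξ : ℂ) else 0 := by
    intro a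
    have := AddChar.sum_eq_ite ((AddChar.doubleDualEmb a : AddChar (AddChar A ℂ) ℂ).compAddMonoidHom
      Ξ.subtype)
    simp only [AddChar.compAddMonoidHom_apply, AddChar.doubleDualEmb_apply] at this
    refine this.trans (if_congr ⟨fun h χ hχ => ?_, fun h => ?_⟩ rfl rfl)
    · simpa using DFunLike.congr_fun h ⟨χ, hχ⟩
    · ext χ
      simpa using h χ.1 χ.2
  refine ⟨H, ?_, fun a ha => ?_⟩
  · have h2 : ∑ a, ∑ χ : Ξ, χ.1 a = Fintype.card A := by
      rw [sum_comm, sum_eq_single 0]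
      · simp
      · exact fun χ _ h => AddChar.sum_eq_zero_iff_ne_zero.2 fun e => h (Subtype.ext e)
      · simp
    simp only [h1] at h2
    rw [← sum_filter, sum_const, nsmul_eq_mul] at h2
    rw [Nat.card_eq_fintype_card, Nat.card_eq_fintype_card, Fintype.card_subtype]
    exact_mod_cast h2
  · rw [finsum_eq_sum_of_fintype, ← Complex.re_sum, h1, if_neg ha, Complex.zero_re]

open Classical in
theorem LO (h0 : 0 ≤ p) (h1 : p ≤ 1 / 2) (Y : Finset V) (y : V → A) (g : A) {τ : ℝ} (hτ : 0 ≤ τ)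
    {L : ℕ} (hL : 0 < L) :
    rP p Y (fun a => ∑ w ∈ a, y w = g) ≤ 1 / L + Real.exp (-(τ / 4)) ∨
      ∃ H : AddSubgroup A, Nat.card H ≤ L ∧
        rP p Y (fun a => ∑ w ∈ a, y w = g) ≤ 1 / Nat.card H + Real.exp (-(τ / 4)) ∧
        ((Y.filter fun w => y w ∉ H).card : ℝ) * p ≤ 16 ^ L * τ := by
  set F : AddChar A ℂ → ℝ := fun χ => p * ∑ w ∈ Y, ‖1 - χ (y w)‖ ^ 2 with hF
  set s := (univ.filter fun χ => F χ ≤ τ).card with hs
  have hA : (0 : ℝ) < Fintype.card A := by exact_mod_cast Fintype.card_pos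
  have hF0 : ∀ χ, 0 ≤ F χ := fun χ => by rw [hF]; positivity
  have main : ∀ m : ℕ, 0 < m → m * s ≤ Fintype.card A →
      rP p Y (fun a => ∑ w ∈ a, y w = g) ≤ 1 / m + Real.exp (-(τ / 4)) := by
    intro m hm h
    have a1 : ∑ χ, Real.exp (-(F χ / 4)) ≤ s + Fintype.card A * Real.exp (-(τ / 4)) := by
      refine (sum_le_sum (g := fun χ => (if F χ ≤ τ then 1 else 0) + Real.exp (-(τ / 4)))
        fun χ _ => ?_).trans (le_of_eq ?_)
      · split_ifs with h
        · linarith [Real.exp_pos (-(τ / 4)), Real.exp_le_one_iff.2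
            (show -(F χ / 4) ≤ 0 by linarith [hF0 χ])]
        · rw [zero_add, Real.exp_le_exp]
          linarith
      · rw [sum_add_distrib, sum_boole, sum_const, card_univ, AddChar.card_eq, nsmul_eq_mul]
    have a2 : (s : ℝ) ≤ Fintype.card A * (1 / m) := by
      rw [mul_one_div, le_div_iff₀ (by exact_mod_cast hm), mul_comm]
      exact_mod_cast h
    refine le_of_mul_le_mul_left ?_ hA
    linarith [rP_fourier h0 h1 Y y g]
  by_cases hc : L * s ≤ Fintype.card A
  · exact Or.inl (main L hL hc)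
  have hn : ∀ χ, F (-χ) = F χ := fun χ => by
    simp only [hF, norm_one_sub_sq (AddChar.norm_apply _ _), AddChar.neg_apply,
      AddChar.map_neg_eq_conj, Complex.conj_re]
  have ha : ∀ χ χ', F (χ + χ') ≤ 2 * F χ + 2 * F χ' := fun χ χ' => by
    simp only [hF, AddChar.add_apply]
    rw [mul_left_comm, mul_left_comm 2 p, ← mul_add]
    refine mul_le_mul_of_nonneg_left ?_ h0
    rw [mul_sum, mul_sum, ← sum_add_distrib]
    refine sum_le_sum fun w _ => ?_
    have c1 : ‖1 - χ (y w) * χ' (y w)‖ ≤ ‖1 - χ (y w)‖ + ‖1 - χ' (y w)‖ := by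
      rw [show 1 - χ (y w) * χ' (y w) = (1 - χ (y w)) + χ (y w) * (1 - χ' (y w)) by ring]
      refine (norm_add_le _ _).trans ?_
      rw [norm_mul, AddChar.norm_apply, one_mul]
    nlinarith [norm_nonneg (1 - χ (y w) * χ' (y w)), sq_nonneg (‖1 - χ (y w)‖ - ‖1 - χ' (y w)‖)]
  obtain ⟨Ξ, x1, x2⟩ := window F (by simp [hF]) hn ha hτ (L := L)
    (by rw [AddChar.card_eq]; exact not_le.1 hc)
  obtain ⟨H, y1, y2⟩ := exists_perp Ξ
  have b1 : s ≤ Nat.card Ξ := by
    rw [Nat.card_eq_fintype_card, Fintype.card_subtype]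
    exact card_le_card fun χ h => mem_filter.2 ⟨mem_univ _, x1 χ (mem_filter.1 h).2⟩
  have b2 : Nat.card H * s ≤ Fintype.card A := y1 ▸ Nat.mul_le_mul_left _ b1
  refine Or.inr ⟨H, ?_, main _ Nat.card_pos b2, ?_⟩
  · exact (lt_of_mul_lt_mul_right (b2.trans_lt (not_le.1 hc)) (Nat.zero_le _)).le
  · have b3 : ∑ χ : Ξ, F χ.1 ≤ Fintype.card Ξ * (16 ^ L * τ) := by
      simpa using sum_le_card_nsmul univ (fun χ : Ξ => F χ.1) _ fun χ _ => x2 χ.1 χ.2
    have b4 : Fintype.card Ξ * (((Y.filter fun w => y w ∉ H).card : ℝ) * p) ≤ ∑ χ : Ξ, F χ.1 := by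
      simp only [hF]
      rw [← mul_sum, sum_comm, ← mul_assoc, mul_comm _ p]
      refine mul_le_mul_of_nonneg_left (le_trans ?_ (sum_le_sum_of_subset_of_nonneg
        (filter_subset (fun w => y w ∉ H) Y) fun _ _ _ => by positivity)) h0
      rw [mul_comm, ← nsmul_eq_mul]
      refine card_nsmul_le_sum _ _ _ fun w hw => ?_
      have := y2 _ (mem_filter.1 hw).2
      rw [finsum_eq_sum_of_fintype] at this
      simp only [norm_one_sub_sq (AddChar.norm_apply _ _), sum_sub_distrib, ← mul_sum, this]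
      simp
      linarith [(Nat.cast_nonneg (Fintype.card Ξ) : (0 : ℝ) ≤ _)]
    exact le_of_mul_le_mul_left (b4.trans b3) (by exact_mod_cast Fintype.card_pos)

end Pool.Agent.P.MP_f57657_co
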