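import Pool.Agent.P.MP_f57657_co.W.Core

/-! Integral rows of the orthogonal matrix and relabelling. -/

open Finset Matrix Polynomial

namespace Pool.Agent.P.MP_f57657_co

section Mat

variable {W : Type*} [Fintype W] [DecidableEq W] {U : Matrix W W ℝ}

theorem sum_row_sq (hU : Uᵀ * U = 1) (v : W) : ∑ j, U v j ^ 2 = 1 := by
  have h : U * Uᵀ = 1 := mul_eq_one_comm.1 hU
  simpa [mul_apply, sq] using congrFun₂ h v v

theorem sum_col_sq (hU : Uᵀ * U = 1) (j : W) : ∑ v, U v j ^ 2 = 1 := by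
  simpa [mul_apply, sq] using congrFun₂ hU j j

theorem eq_zero_of_sq {f : W → ℝ} (h : ∑ j, f j ^ 2 = 1) {a : W} (ha : 1 ≤ f a ^ 2) :
    f a ^ 2 = 1 ∧ ∀ i, i ≠ a → f i = 0 := by
  rw [← add_sum_erase _ _ (mem_univ a)] at h
  have h1 : 0 ≤ ∑ j ∈ univ.erase a, f j ^ 2 := sum_nonneg fun _ _ => sq_nonneg _
  exact ⟨by linarith, fun i hi => pow_eq_zero_iff two_ne_zero |>.1
    ((sum_eq_zero_iff_of_nonneg fun _ _ => sq_nonneg _).1 (by linarith) i (by simpa using hi))⟩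

theorem eq_unit {f : W → ℝ} (h : ∑ j, f j ^ 2 = 1) {a : W} (ha : f a = 1) (i : W) :
    f i = if i = a then 1 else 0 := by
  split_ifs with hi
  · rw [hi, ha]
  · exact (eq_zero_of_sq h (by simp [ha])).2 i hi

theorem one_le_int_sq {z : ℤ} (h : (z : ℝ) ≠ 0) : 1 ≤ (z : ℝ) ^ 2 := by
  exact_mod_cast (one_le_sq_iff_one_le_abs z).2 (Int.one_le_abs (by exact_mod_cast h))

theorem int_row (hU : Uᵀ * U = 1) {v : W} (h : ∀ j, ∃ z : ℤ, (z : ℝ) = U v j) :
    (∃ a, U v a = 1) ∨ ∃ a, U v a = -1 := by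
  obtain ⟨a, -, ha⟩ := exists_ne_zero_of_sum_ne_zero ((sum_row_sq hU v).trans_ne one_ne_zero)
  obtain ⟨z, hz⟩ := h a
  exact (sq_eq_one_iff.1 (eq_zero_of_sq (sum_row_sq hU v) (a := a)
    (hz ▸ one_le_int_sq (hz ▸ fun e => ha (by simp [e])))).1).imp (⟨a, ·⟩) (⟨a, ·⟩)

/-- The reals modulo the integers. -/
abbrev RZ := ℝ ⧸ AddSubgroup.zmultiples (1 : ℝ)

theorem RZ_zero {x : ℝ} : (x : RZ) = 0 ↔ ∃ z : ℤ, (z : ℝ) = x := by
  simp [AddSubgroup.mem_zmultiples_iff]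

open Classical in
theorem few_nonint (hU : Uᵀ * U = 1) (N : AddSubgroup (W → RZ)) [Finite N] :
    (univ.filter fun v => (fun j => (U v j : RZ)) ∈ N ∧ ¬∀ j, ∃ z : ℤ, (z : ℝ) = U v j).card ≤
      Nat.card N ^ 3 := by
  refine (card_le_mul_card_image_of_maps_to (t := (Set.toFinite (N : Set (W → RZ))).toFinset)
    (f := fun v j => (U v j : RZ)) (fun v hv => by simpa using (mem_filter.1 hv).2.1)
    (Nat.card N ^ 2) fun m hm => ?_).trans (le_of_eq ?_)
  · set Z := filter (fun v => (fun j => (U v j : RZ)) = m) _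
    rcases Z.eq_empty_or_nonempty with e | ⟨v₀, h₀⟩
    · simp [e]
    obtain ⟨j, hj⟩ := not_forall.1 (mem_filter.1 (mem_filter.1 h₀).1).2.2
    have a1 : ∀ v ∈ Z, 1 ≤ (Nat.card N : ℝ) ^ 2 * U v j ^ 2 := fun v hv => by
      have b1 := congrFun ((mem_filter.1 hv).2.trans (mem_filter.1 h₀).2.symm) j
      have b2 := congrFun (congrArg Subtype.val (card_nsmul_eq_zero' (G := N)
        (x := ⟨_, (mem_filter.1 (mem_filter.1 hv).1).2.1⟩))) j
      obtain ⟨z, hz⟩ := RZ_zero.1 (show ((Nat.card N • U v j : ℝ) : RZ) = 0 from b2)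
      rw [← mul_pow, ← nsmul_eq_mul, ← hz]
      refine one_le_int_sq (hz ▸ smul_ne_zero Nat.card_pos.ne' fun e => hj (RZ_zero.1 ?_))
      rw [← b1, e]
      rfl
    have a2 := card_nsmul_le_sum _ _ _ a1
    rw [← mul_sum, nsmul_one] at a2
    have a3 : ∑ v ∈ Z, U v j ^ 2 ≤ 1 := (sum_le_sum_of_subset_of_nonneg (subset_univ _)
      fun _ _ _ => sq_nonneg _).trans (sum_col_sq hU j).le
    exact_mod_cast a2.trans (mul_le_of_le_one_right (sq_nonneg _) a3)
  · rw [← Set.ncard_eq_toFinset_card _ (Set.toFinite _), pow_succ _ 2]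
    rfl

variable {F H : SimpleGraph W} [DecidableRel F.Adj] [DecidableRel H.Adj]

theorem no_edge (hU : Uᵀ * U = 1) (hA : H.adjMatrix ℝ = Uᵀ * F.adjMatrix ℝ * U) {v w a b : W}
    (hv : U v a = 1) (hw : U w b = -1) : ¬F.Adj v w := fun h => by
  have a1 := eq_unit (sum_col_sq hU a) hv
  have a2 := eq_unit (f := fun i => -U i b) (by simpa using sum_col_sq hU b) (a := w) (by simp [hw])
  have a3 := congrFun₂ hA a b
  simp only [neg_eq_iff_eq_neg] at a2
  have a4 : ∀ j, (Uᵀ * F.adjMatrix ℝ) a j = F.adjMatrix ℝ v j := fun j => by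
    rw [mul_apply]
    simp only [transpose_apply, a1, boole_mul, sum_ite_eq', mem_univ, if_true]
  rw [mul_apply] at a3
  simp only [a4, a2, mul_neg, mul_boole, sum_neg_distrib, sum_ite_eq', mem_univ, if_true,
    SimpleGraph.adjMatrix_apply, h] at a3
  split_ifs at a3 <;> norm_num at a3

theorem row_eq (hU : Uᵀ * U = 1) (hA : H.adjMatrix ℝ = Uᵀ * F.adjMatrix ℝ * U) (v j : W) :
    ∑ i ∈ H.neighborFinset j, U v i = ∑ w ∈ F.neighborFinset v, U w j := by
  have h : U * Uᵀ = 1 := mul_eq_one_comm.1 hU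
  have h2 : U * H.adjMatrix ℝ = F.adjMatrix ℝ * U := by
    rw [hA, ← Matrix.mul_assoc, ← Matrix.mul_assoc, h, Matrix.one_mul]
  simpa using congrFun₂ h2 v j

end Mat

theorem IsSwitching.intro {W : Type*} [Finite W] [i₁ : Fintype W] [i₂ : DecidableEq W]
    {F H : SimpleGraph W} [i₃ : DecidableRel F.Adj] [i₄ : DecidableRel H.Adj] {m : ℝ} : IsSwitching F H m ↔
    ∃ (S : Finset W) (U : Matrix W W ℝ), (S.card : ℝ) ≤ m ∧ Uᵀ * U = 1 ∧
      (∀ t ∉ S, ∀ i, U i t = if i = t then 1 else 0) ∧ H.adjMatrix ℝ = Uᵀ * F.adjMatrix ℝ * U := by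
  obtain rfl : i₁ = Fintype.ofFinite W := Subsingleton.elim _ _
  obtain rfl : i₂ = fun _ _ => Classical.propDecidable _ := Subsingleton.elim _ _
  obtain rfl : i₃ = fun _ _ => Classical.propDecidable _ := Subsingleton.elim _ _
  obtain rfl : i₄ = fun _ _ => Classical.propDecidable _ := Subsingleton.elim _ _
  rfl

theorem relabel {W : Type*} [Fintype W] [DecidableEq W] {F H : SimpleGraph W}
    [DecidableRel F.Adj] [DecidableRel H.Adj] {U : Matrix W W ℝ} (hU : Uᵀ * U = 1)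
    (hA : H.adjMatrix ℝ = Uᵀ * F.adjMatrix ℝ * U) {R : Finset W} (hR : ∀ v ∈ R, ∃ a, U v a = 1) :
    ∃ H' : SimpleGraph W, Nonempty (H' ≃g H) ∧ IsSwitching F H' (Rᶜ).card := by
  classical
  choose π hπ using hR
  obtain ⟨σ, hσ⟩ := Equiv.Perm.exists_extending_pair (Subtype.val : R → W) (fun v => π v.1 v.2)
    Subtype.val_injective fun v w e => Subtype.ext (by
      have := eq_unit (sum_col_sq hU _) (hπ w.1 w.2) v
      rw [← show π v.1 v.2 = π w.1 w.2 from e, hπ] at this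
      by_contra a
      simp [a] at this)
  refine ⟨H.comap σ, ⟨SimpleGraph.Iso.comap σ H⟩, IsSwitching.intro.2
    ⟨Rᶜ, U.submatrix id σ, le_rfl, ?_, fun t ht i => ?_, ?_⟩⟩
  · rw [transpose_submatrix, ← submatrix_mul _ _ _ _ _ Function.bijective_id, hU,
      submatrix_one_equiv]
  · rw [mem_compl, not_not] at ht
    rw [submatrix_apply, hσ ⟨t, ht⟩]
    exact eq_unit (sum_col_sq hU _) (hπ t ht) i
  · rw [transpose_submatrix, ← submatrix_id_id (F.adjMatrix ℝ),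
      ← submatrix_mul _ _ _ _ _ Function.bijective_id,
      ← submatrix_mul _ _ _ _ _ Function.bijective_id, ← hA]
    ext i j
    simp

variable {V : Type} [Fintype V] [DecidableEq V] {ω : Sym2 V → Bool}

theorem core_big {η : ℝ} {W : Set V} [Fintype W] (hW : Core (gr ω) W) (hT : ¬EvT η ω)
    (hs : η * Fintype.card V ≤ Fintype.card W) :
    (((up (univ : Finset W))ᶜ).card : ℝ) ≤ η * Fintype.card V := by
  have m1 : ∀ v, v ∈ up (univ : Finset W) ↔ v ∈ W := fun v => by simp [mem_up]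
  refine le_of_not_ge fun a => hT ⟨up (univ : Finset W), _, ?_, a, fun t => mem_compl.1,
    fun t ht => card_le_one.2 fun x hx y hy => ?_⟩
  · rwa [card_up, card_univ]
  · rw [mem_row (mem_compl.1 ht), m1] at hx hy
    by_contra e
    exact mem_compl.1 ht ((m1 t).2 (hW.ext {t} (fun v hv => ⟨x, hx.1, hv ▸ hx.2.reachable⟩)
      (fun v hv _ => ⟨x, Or.inl hx.1, y, Or.inl hy.1, e, hv ▸ hx.2, hv ▸ hy.2⟩) rfl))

open Classical in
theorem rigid_rows {δ η ε : ℝ} {q : ℕ} {W : Set V}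
    (hR : ∀ H, IsSwitching ((gr ω).induce W) H (δ * Fintype.card V) →
      Nonempty (H ≃g (gr ω).induce W)) (hT : ¬EvT η ω)
    (e1 : 3 * η ≤ δ) (e3 : (q : ℝ) ^ 3 ≤ η * Fintype.card V)
    (hD : (((up (univ : Finset W))ᶜ).card : ℝ) ≤ η * Fintype.card V)
    (hc : ∀ (M : Type) [AddCommGroup M] [Module ℤ[X] M] (ψ : V → M) (D T : Finset V),
      (∀ v ∉ D, (X : ℤ[X]) • ψ v = ∑ w ∈ nbh ω v, ψ w) → (∀ t ∈ T, ψ t = 0) →
      (D.card : ℝ) ≤ η * Fintype.card V → ε * Fintype.card V ≤ T.card →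
      ∃ (E : Finset V) (N : Submodule ℤ[X] M), (E.card : ℝ) ≤ η * Fintype.card V ∧ Finite N ∧
        Nat.card N ≤ q ∧ ∀ v ∉ E, ψ v ∈ N) {H : SimpleGraph W} {U : Matrix W W ℝ}
    (hU : Uᵀ * U = 1) (hA : H.adjMatrix ℝ = Uᵀ * ((gr ω).induce W).adjMatrix ℝ * U)
    {T : Finset W} (hS : ε * Fintype.card V ≤ T.card)
    (hS' : ∀ t ∈ T, ∀ j, ∃ z : ℤ, (z : ℝ) = U t j) : Nonempty (H ≃g (gr ω).induce W) := by
  have n0 : (0 : ℝ) ≤ Fintype.card V := Nat.cast_nonneg _
  have m1 : ∀ v, v ∈ up (univ : Finset W) ↔ v ∈ W := fun v => by simp [mem_up]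
  let f : (W → RZ) →ₗ[ℤ] (W → RZ) :=
    LinearMap.pi fun j => ∑ i ∈ H.neighborFinset j, LinearMap.proj i
  let u : W → W → RZ := fun v j => (U v j : RZ)
  obtain ⟨E, N, a1, a2, a3, a4⟩ := hc (Module.AEval' f)
    (fun v => if h : v ∈ W then Module.AEval'.of f (u ⟨v, h⟩) else 0) (up (univ : Finset W))ᶜ
    (up T) (fun v hv => by
      rw [mem_compl, not_not, m1] at hv
      rw [dif_pos hv, Module.AEval'.X_smul_of, ← sum_subset (s₁ := up (((gr ω).induce W).neighborFinset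
        ⟨v, hv⟩)), up, sum_map]
      · rw [sum_congr rfl (g := fun w => Module.AEval'.of f (u w)) fun w _ => dif_pos w.2,
          ← map_sum]
        congr 1
        funext j
        simpa [f, u] using congrArg (QuotientAddGroup.mk' (AddSubgroup.zmultiples (1 : ℝ)))
          (row_eq hU hA ⟨v, hv⟩ j)
      · intro w hw
        simpa [mem_nbh] using (mem_up.1 hw).2
      · intro w hw h
        exact dif_neg fun a => h (mem_up.2 ⟨a, by simpa [mem_nbh] using hw⟩))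
    (fun t ht => by
      obtain ⟨b1, b2⟩ := mem_up.1 ht
      rw [dif_pos b1, LinearEquiv.map_eq_zero_iff]
      funext j
      exact RZ_zero.2 (hS' _ b2 j)) hD (by rwa [card_up])
  let N' := N.toAddSubgroup.comap (Module.AEval'.of f).toAddEquiv.toAddMonoidHom
  have b1 : N' ≃ N := (Module.AEval'.of f).toEquiv.subtypeEquiv fun _ => Iff.rfl
  have : Finite N' := Finite.of_equiv _ b1.symm
  have b2 := (few_nonint hU N').trans (Nat.pow_le_pow_left ((Nat.card_congr b1).trans_le a3) 3)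
  set Z := univ.filter fun v => (fun j => (U v j : RZ)) ∈ N' ∧ ¬∀ j, ∃ z : ℤ, (z : ℝ) = U v j
  let Rp := univ.filter fun v => ∃ a, U v a = 1
  let Rm := Rpᶜ.filter fun v => ∃ a, U v a = -1
  have b4 : ∀ R R' : Finset W, (∀ v ∈ Rp ∪ Rm, v ∉ R → v ∈ R') → (R'.card : ℝ) ≤ η * Fintype.card V →
      ∀ U' : Matrix W W ℝ, U'ᵀ * U' = 1 → H.adjMatrix ℝ = U'ᵀ * ((gr ω).induce W).adjMatrix ℝ * U' →
      (∀ v ∈ R, ∃ a, U' v a = 1) → Nonempty (H ≃g (gr ω).induce W) := by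
    intro R R' h1 h2 U' hU' hA' h3
    have b5 : (Rᶜ).card ≤ E.card + Z.card + R'.card := by
      rw [← card_up, ← card_up Z, ← card_up R']
      refine (card_le_card fun v hv => ?_).trans
        ((card_union_le _ _).trans (Nat.add_le_add_right (card_union_le _ _) _))
      obtain ⟨c1, c2⟩ := mem_up.1 hv
      rw [mem_union, mem_union, or_assoc, or_iff_not_imp_left, or_iff_not_imp_left]
      refine fun c3 c4 => mem_up.2 ⟨c1, h1 _ (mem_union.2 (or_iff_not_imp_left.2 fun c5 =>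
        mem_filter.2 ⟨mem_compl.2 c5, (int_row hU ?_).resolve_left
          fun a => c5 (mem_filter.2 ⟨mem_univ _, a⟩)⟩)) (mem_compl.1 c2)⟩
      by_contra a
      refine c4 (mem_up.2 ⟨c1, mem_filter.2 ⟨mem_univ _, ?_, a⟩⟩)
      have := a4 v c3
      rwa [dif_pos c1] at this
    obtain ⟨H', ⟨i⟩, h'⟩ := relabel hU' hA' h3
    obtain ⟨S', U'', c1, c2⟩ := IsSwitching.intro.1 h'
    obtain ⟨i'⟩ := hR H' (IsSwitching.intro.2 ⟨S', U'', c1.trans (by
      have d1 : ((Rᶜ).card : ℝ) ≤ E.card + Z.card + R'.card := by exact_mod_cast b5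
      have d2 : (Z.card : ℝ) ≤ q ^ 3 := by exact_mod_cast b2
      nlinarith), c2⟩)
    exact ⟨i.symm.trans i'⟩
  rcases le_total (Rm.card : ℝ) (η * Fintype.card V) with a | a
  · exact b4 Rp Rm (fun v hv => (mem_union.1 hv).resolve_left) a U hU hA
      fun v hv => (mem_filter.1 hv).2
  rcases le_total (Rp.card : ℝ) (η * Fintype.card V) with a' | a'
  · exact b4 Rm Rp (fun v hv => (mem_union.1 hv).resolve_right) a' (-U) (by simpa using hU)
      (by simpa using hA) fun v hv => (mem_filter.1 hv).2.imp fun a h => by simp [h]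
  refine (hT ⟨up Rp, up Rm, by rwa [card_up], by rwa [card_up], fun t ht b => ?_,
    fun t ht => card_le_one.2 fun x hx => ?_⟩).elim
  · exact mem_compl.1 (mem_filter.1 (mem_up.1 ht).2).1 (mem_up.1 b).2
  · obtain ⟨c1, c2⟩ := mem_up.1 ht
    rw [mem_row fun b => mem_compl.1 (mem_filter.1 c2).1 (mem_up.1 b).2, mem_up] at hx
    obtain ⟨⟨c3, c4⟩, c5⟩ := hx
    obtain ⟨a, ha⟩ := (mem_filter.1 c4).2
    obtain ⟨b, hb⟩ := (mem_filter.1 c2).2
    exact absurd c5.symm (no_edge hU hA ha hb)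

end Pool.Agent.P.MP_f57657_co
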