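import Pool.Agent.P.MP_f57657_co.Main

/-! Law of one row, a first moment bound, rare events. -/

open Finset

namespace Pool.Agent.P.MP_f57657_co

variable {V : Type*} [DecidableEq V] {p : ℝ}

/-- Expectation of a function of a random subset of `Y`. -/
noncomputable def rE (p : ℝ) (Y : Finset V) (F : Finset V → ℝ) : ℝ :=
  ∑ a ∈ Y.powerset, p ^ a.card * (1 - p) ^ (Y \ a).card * F a

open Classical in
/-- Probability of a property of a random subset of `Y`. -/
noncomputable def rP (p : ℝ) (Y : Finset V) (A : Finset V → Prop) : ℝ :=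
  rE p Y fun a => if A a then 1 else 0

theorem rE_mono (h0 : 0 ≤ p) (h1 : p ≤ 1) {Y : Finset V} {F F' : Finset V → ℝ}
    (h : ∀ a ⊆ Y, F a ≤ F' a) : rE p Y F ≤ rE p Y F' :=
  sum_le_sum fun a ha => mul_le_mul_of_nonneg_left (h a (mem_powerset.1 ha))
    (mul_nonneg (pow_nonneg h0 _) (pow_nonneg (by linarith) _))

theorem rP_mono (h0 : 0 ≤ p) (h1 : p ≤ 1) {Y : Finset V} {A B : Finset V → Prop}
    (h : ∀ a ⊆ Y, A a → B a) : rP p Y A ≤ rP p Y B :=
  rE_mono h0 h1 fun a ha => by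
    by_cases hA : A a
    · simp [hA, h a ha hA]
    · simp only [hA, if_false]; split_ifs <;> norm_num

theorem rE_pow (Y : Finset V) (z : ℝ) : rE p Y (fun a => z ^ a.card) = (p * z + (1 - p)) ^ Y.card := by
  rw [← prod_const, prod_add, rE]
  refine sum_congr rfl fun a _ => ?_
  rw [prod_const, prod_const, mul_pow]
  ring

theorem rE_mul (Y : Finset V) (c : ℝ) (F : Finset V → ℝ) :
    rE p Y (fun a => c * F a) = c * rE p Y F := by
  simp only [rE, mul_sum]
  exact sum_congr rfl fun a _ => by ring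

theorem rE_const (Y : Finset V) (c : ℝ) : rE p Y (fun _ => c) = c := by
  have h1 := rE_pow (p := p) Y 1
  have h2 := rE_mul (p := p) Y c fun _ => 1
  simp only [one_pow, mul_one, add_sub_cancel] at h1 h2
  rw [h2, h1, mul_one]

theorem rP_le_one (h0 : 0 ≤ p) (h1 : p ≤ 1) (Y : Finset V) (A : Finset V → Prop) : rP p Y A ≤ 1 :=
  (rE_mono h0 h1 fun a _ => by split_ifs <;> norm_num).trans (rE_const Y 1).le

theorem rP_nonneg (h0 : 0 ≤ p) (h1 : p ≤ 1) (Y : Finset V) (A : Finset V → Prop) : 0 ≤ rP p Y A :=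
  (rE_const Y 0).ge.trans (rE_mono h0 h1 fun a _ => by split_ifs <;> norm_num)

theorem rE_insert {Y : Finset V} {s : V} (hs : s ∉ Y) (F : Finset V → ℝ) :
    rE p (insert s Y) F = rE p Y fun a => p * F (insert s a) + (1 - p) * F a := by
  rw [rE, sum_powerset_insert hs, rE, ← sum_add_distrib]
  refine sum_congr rfl fun a ha => ?_
  have h1 : s ∉ a := fun h => hs (mem_powerset.1 ha h)
  rw [insert_sdiff_of_notMem _ h1, card_insert_of_notMem (fun h => hs (mem_sdiff.1 h).1),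
    card_insert_of_notMem h1, insert_sdiff_insert, sdiff_insert_of_notMem hs]
  ring

variable [Fintype V]

theorem Ex_row (Y : Finset V) (t : V) (F : Finset V → ℝ) :
    Ex p (fun ω => F (row ω Y t)) = rE p Y F := by
  have e1 : ∀ ω : Sym2 V → Bool, F (row ω Y t) = ∑ a ∈ Y.powerset,
      F a * ∏ e ∈ star Y t, if (ω e = true ↔ e ∈ star a t) then (1 : ℝ) else 0 := by
    intro ω
    have hm : ∀ (a : Finset V) u, s(t, u) ∈ star a t ↔ u ∈ a := fun a u =>
      ⟨fun h => by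
        obtain ⟨w, hw, e⟩ := mem_image.1 h
        rwa [← Sym2.congr_right.1 e], fun h => mem_image_of_mem _ h⟩
    rw [sum_eq_single (row ω Y t)]
    · rw [prod_eq_one, mul_one]
      intro e he
      obtain ⟨u, hu, rfl⟩ := mem_image.1 he
      rw [if_pos]
      simp [hm, row, hu]
    · intro a ha hne
      rw [prod_boole, if_neg, mul_zero]
      intro h
      refine hne (Finset.ext fun u => ⟨fun hu => ?_, fun hu => ?_⟩)
      · have h2 := mem_powerset.1 ha hu
        exact mem_filter.2 ⟨h2, (h _ ((hm _ _).2 h2)).2 ((hm _ _).2 hu)⟩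
      · exact (hm _ _).1 ((h _ ((hm _ _).2 (mem_filter.1 hu).1)).1 (mem_filter.1 hu).2)
    · intro h
      exact absurd (mem_powerset.2 (filter_subset _ _)) h
  simp only [e1]
  rw [Ex_sum, rE]
  refine sum_congr rfl fun a ha => ?_
  have hs : star a t ⊆ star Y t := image_subset_image (mem_powerset.1 ha)
  rw [Ex_mul, Ex_prod (star Y t) fun e b => if (b = true ↔ e ∈ star a t) then 1 else 0,
    prod_congr rfl (g := fun e => if e ∈ star a t then p else 1 - p)
      fun e _ => by by_cases h : e ∈ star a t <;> simp [h],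
    prod_ite, prod_const, prod_const, filter_mem_eq_inter, inter_eq_right.2 hs, ← sdiff_eq_filter,
    card_sdiff_of_subset hs, card_star, card_star, card_sdiff_of_subset (mem_powerset.1 ha),
    mul_comm]

omit [Fintype V] in
theorem row_mix_out {J Z : Finset V} {s t : V} (ht : t ∉ J) (h : ∀ u ∈ Z, u ∉ J)
    (ω ω' : Sym2 V → Bool) : row (mix (star J s) ω ω') Z t = row ω Z t :=
  filter_congr fun u hu => by
    rw [mix, if_neg]
    intro h'
    obtain ⟨w, hw, e⟩ := mem_image.1 h'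
    rcases Sym2.eq_iff.1 e with e | e
    exacts [h u hu (e.2 ▸ hw), ht (e.2 ▸ hw)]

/-- First moment bound over a family of candidates that does not see the exposed rows. -/
theorem fm (h0 : 0 ≤ p) (h1 : p ≤ 1) {ι : Type*} [Finite ι] (T : Finset V) (Y : ι → Finset V)
    (Φ : ι → (Sym2 V → Bool) → Prop) (A : ι → V → (Sym2 V → Bool) → Finset V → Prop) {c N : ℝ}
    (hc0 : 0 ≤ c) (hT : ∀ i, ∀ t ∈ T, t ∉ Y i)
    (hΦ : ∀ i, ∀ t ∈ T, ∀ ω ω', Φ i (mix (star (Y i) t) ω ω') ↔ Φ i ω)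
    (hA : ∀ i, ∀ t ∈ T, ∀ s ∈ T, ∀ ω ω', A i s (mix (star (Y i) t) ω ω') = A i s ω)
    (hc : ∀ i, ∀ t ∈ T, ∀ ω, Φ i ω → rP p (Y i) (A i t ω) ≤ c)
    (hN : ∀ ω, ({i | Φ i ω}.ncard : ℝ) ≤ N) :
    Pr p (fun ω => ∃ i, Φ i ω ∧ ∀ t ∈ T, A i t ω (row ω (Y i) t)) ≤ c ^ T.card * N := by
  classical
  cases nonempty_fintype ι
  refine (Pr_union h0 h1 univ (fun i ω => Φ i ω ∧ ∀ t ∈ T, A i t ω (row ω (Y i) t))
    fun ω ⟨i, h⟩ => ⟨i, mem_univ _, h⟩).trans ?_
  refine (sum_le_sum (g := fun i => c ^ T.card * Ex p fun ω => if Φ i ω then 1 else 0)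
    fun i _ => ?_).trans ?_
  · refine le_trans (Pr_le h0 h1 (fun ω => mul_nonneg (by split_ifs <;> norm_num)
      (prod_nonneg fun t _ => by split_ifs <;> norm_num)) fun ω h => ?_)
      (peel h0 h1 T (star (Y i)) (fun ω => if Φ i ω then 1 else 0)
        (fun t ω => if Φ i ω ∧ A i t ω (row ω (Y i) t) then 1 else 0) hc0
        (fun ω => by split_ifs <;> norm_num) (fun t ω => by split_ifs <;> norm_num)
        (fun t ht ω ω' => by simp only [hΦ i t ht])
        (fun t ht s hs hst ω ω' => by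
          simp only [hΦ i t ht, hA i t ht s hs, row_mix_ne (hT i t ht) hst]) fun t ht ω => ?_)
    · rw [if_pos h.1, prod_congr rfl (g := fun _ => 1) fun t ht => if_pos ⟨h.1, h.2 t ht⟩]
      simp
    · simp only [hΦ i t ht, hA i t ht t ht, row_mix_self]
      by_cases h : Φ i ω
      · simp only [h, true_and]
        rw [Ex_row (Y i) t fun a => if A i t ω a then 1 else 0]
        exact hc i t ht ω h
      · simpa [h, Ex_const] using hc0
  · rw [← mul_sum, ← Ex_sum]
    refine mul_le_mul_of_nonneg_left ((Ex_mono h0 h1 fun ω => ?_).trans (Ex_const N).le)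
      (pow_nonneg hc0 _)
    rw [sum_boole]
    refine le_trans (le_of_eq ?_) (hN ω)
    rw [← Set.ncard_coe_finset]
    congr 2
    ext i
    simp

theorem Pr_rows (h0 : 0 ≤ p) (h1 : p ≤ 1) {Y T : Finset V} (hT : ∀ t ∈ T, t ∉ Y)
    {A : Finset V → Prop} {c : ℝ} (hc : rP p Y A ≤ c) :
    Pr p (fun ω => ∀ t ∈ T, A (row ω Y t)) ≤ c ^ T.card := by
  have := fm h0 h1 T (fun _ : Unit => Y) (fun _ _ => True) (fun _ _ _ => A) (N := 1)
    ((rP_nonneg h0 h1 _ _).trans hc) (fun _ => hT) (by simp) (by simp) (fun _ _ _ _ _ => hc)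
    (by simp)
  simpa using this

/-- Events of probability `O(1/n)` when the mean degree is large. -/
def Rare (E : ∀ n : ℕ, ℝ → (Sym2 (Fin n) → Bool) → Prop) : Prop :=
  ∃ C M : ℝ, ∀ (n : ℕ) (p : ℝ), C ≤ n * p → 0 < p → p ≤ 1 / 2 → Pr p (E n p) ≤ M / n

variable {E E' : ∀ n : ℕ, ℝ → (Sym2 (Fin n) → Bool) → Prop}

theorem Rare.mono (h : Rare E) (C : ℝ)
    (hE : ∀ (n : ℕ) (p : ℝ) ω, C ≤ n * p → 0 < p → p ≤ 1 / 2 → E' n p ω → E n p ω) : Rare E' := by
  obtain ⟨C', M, h⟩ := h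
  exact ⟨max C C', M, fun n p a b c => (Pr_mono b.le (by linarith) fun ω =>
    hE n p ω ((le_max_left _ _).trans a) b c).trans (h n p ((le_max_right _ _).trans a) b c)⟩

theorem Rare.or (h : Rare E) (h' : Rare E') : Rare fun n p ω => E n p ω ∨ E' n p ω := by
  obtain ⟨C, M, h⟩ := h
  obtain ⟨C', M', h'⟩ := h'
  refine ⟨max C C', M + M', fun n p a b c => (Pr_or b.le (by linarith) _ _).trans ?_⟩
  rw [add_div]
  exact add_le_add (h n p ((le_max_left _ _).trans a) b c) (h' n p ((le_max_right _ _).trans a) b c)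

theorem Rare.ex {σ : Type*} [Finite σ] {E : σ → ∀ n : ℕ, ℝ → (Sym2 (Fin n) → Bool) → Prop}
    (h : ∀ s, Rare (E s)) : Rare fun n p ω => ∃ s, E s n p ω := by
  cases nonempty_fintype σ
  choose C M h using h
  refine ⟨∑ s, |C s|, ∑ s, M s, fun n p a b c => (Pr_union b.le (by linarith) univ
    (fun s => E s n p) fun ω ⟨s, h⟩ => ⟨s, mem_univ _, h⟩).trans ?_⟩
  rw [sum_div]
  exact sum_le_sum fun s _ => h s n p ((le_abs_self _).trans ((single_le_sum
    (f := fun s => |C s|) (fun _ _ => abs_nonneg _) (mem_univ s)).trans a)) b c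

theorem Rare.of_exp (C M c : ℝ) (hM : 0 ≤ M) (hc : 0 < c) (h : ∀ (n : ℕ) (p : ℝ), C ≤ n * p → 0 < p →
    p ≤ 1 / 2 → Pr p (E n p) ≤ M * Real.exp (-(c * n))) : Rare E := by
  refine ⟨max C 1, M / c, fun n p a b d => (h n p ((le_max_left _ _).trans a) b d).trans ?_⟩
  have h1 : 0 < (n : ℝ) := pos_of_mul_pos_right (show 0 < p * n by
    linarith [le_max_right C 1]) b.le
  rw [div_div, div_eq_mul_inv, Real.exp_neg]
  gcongr
  linarith [Real.add_one_le_exp (c * n)]

omit [DecidableEq V] in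
theorem card_sets : (Fintype.card (Finset V) : ℝ) ≤ Real.exp (Fintype.card V) := by
  rw [Fintype.card_finset]
  simpa [one_add_one_eq_two] using one_add_pow_le (b := 1) (by norm_num) (Fintype.card V)

theorem few {c : ℝ} (hc : 0 < c) : ∃ η : ℝ, 0 < η ∧ ∀ n : ℕ,
    ((univ.filter fun R : Finset (Fin n) => (R.card : ℝ) ≤ η * n).card : ℝ) ≤ Real.exp (c * n) := by
  obtain ⟨b, d, x0, x1, x2, x3⟩ := exists_small hc
  refine ⟨d, x2, fun n => ?_⟩
  have h1 : (univ.filter fun R : Finset (Fin n) => (R.card : ℝ) ≤ d * n) =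
      univ.filter fun R : Finset (Fin n) => R.card ≤ ⌊d * n⌋₊ :=
    filter_congr fun R _ => (Nat.le_floor_iff (by positivity)).symm
  rw [h1]
  refine (card_small x0 x1 _).trans ?_
  have h2 := x3 ⌊d * n⌋₊ n n.cast_nonneg (Nat.floor_le (by positivity))
  rw [show 1 / b = Real.exp (-Real.log b) by rw [Real.exp_neg, Real.exp_log x0, one_div],
    ← Real.exp_nat_mul, ← Real.exp_add, Real.exp_le_exp, Fintype.card_fin]
  have : (0 : ℝ) ≤ ⌊d * n⌋₊ := Nat.cast_nonneg _
  linarith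

end Pool.Agent.P.MP_f57657_co
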