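import Pool.Agent.P.MP_f57657_co.W.Fm
import Pool.Agent.P.MP_f57657_co.W.LO
import Pool.Agent.P.MP_f57657_co.W.Alg

/-! Labellings that concentrate on a small subgroup. -/

open Finset Polynomial

namespace Pool.Agent.P.MP_f57657_co

variable {V : Type*} [Fintype V] [DecidableEq V] {p : ℝ} {ω : Sym2 V → Bool}

open Classical in
/-- The vertices with a label outside `H`. -/
noncomputable def off {M : Type*} [AddCommGroup M] (φ : V → M) (H : AddSubgroup M) : Finset V :=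
  univ.filter fun v => φ v ∉ H

omit [DecidableEq V] in
@[simp] theorem mem_off {M : Type*} [AddCommGroup M] {φ : V → M} {H : AddSubgroup M} {v : V} :
    v ∈ off φ H ↔ φ v ∉ H := by simp [off]

omit [Fintype V] in
theorem mass_le (h0 : 0 ≤ p) {A B C : Finset V} (h : ∀ v ∈ A, v ∈ B ∨ v ∈ C) :
    A.card * p ≤ B.card * p + C.card * p := by
  rw [← add_mul]
  refine mul_le_mul_of_nonneg_right ?_ h0
  exact_mod_cast (card_le_card fun v hv => mem_union.2 (h v hv)).trans (card_union_le _ _)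

omit [Fintype V] [DecidableEq V] in
theorem mass_mono (h0 : 0 ≤ p) {A B : Finset V} (h : A ⊆ B) : A.card * p ≤ B.card * p :=
  mul_le_mul_of_nonneg_right (by exact_mod_cast card_le_card h) h0

theorem gap (h0 : 0 ≤ p) {M : Type*} [AddCommGroup M] {f : M → M} {ψ : V → M} {D : Finset V}
    (hX : ∀ v ∉ D, f (ψ v) = ∑ w ∈ nbh ω v, ψ w) {γ K η : ℝ} (hU : ¬EvU p γ K η ω)
    (hs : ∀ Y : Finset V, Y.card * p ≤ K → (Y.card + D.card : ℝ) ≤ η * Fintype.card V)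
    {H H' : AddSubgroup M} (h1 : H ≤ H') (h2 : ∀ h ∈ H, f h ∈ H') (h3 : (off ψ H).card * p ≤ K) :
    (off ψ H').card * p ≤ γ := by
  have a1 : off ψ H' ⊆ off ψ H := fun v hv => mem_off.2 fun h => mem_off.1 hv (h1 h)
  refine le_of_not_gt fun h => hU ⟨off ψ H', off ψ H ∪ D, h.le, (mass_mono h0 a1).trans h3,
    a1.trans subset_union_left, le_trans (by exact_mod_cast card_union_le _ _) (hs _ h3),
    fun t ht e => ?_⟩
  rw [mem_union, not_or, mem_off, not_not] at ht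
  obtain ⟨w, hw⟩ := card_eq_one.1 e
  have a2 := sum_nbh_mem ω (Y := off ψ H') (t := t) (by simpa using h1 ht.1) (φ := ψ) (H := H')
    (by simp)
  rw [hw, sum_singleton, ← hX t ht.2] at a2
  have a3 : w ∈ row ω (off ψ H') t := hw ▸ mem_singleton_self w
  exact mem_off.1 (mem_filter.1 a3).1 (by simpa using sub_mem (h2 _ ht.1) a2)

/-- The outer neighbourhood of a set. -/
def nbo (ω : Sym2 V → Bool) (Y : Finset V) : Finset V := Yᶜ.filter fun t => (row ω Y t).Nonempty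

theorem card_nbo {γ η : ℝ} (hN : ¬EvN p γ η ω) {Y : Finset V} (h : Y.card * p ≤ γ) :
    ((nbo ω Y).card : ℝ) ≤ η * Fintype.card V :=
  le_of_not_ge fun a => hN ⟨Y, _, h, a, fun _ ht => mem_compl.1 (mem_filter.1 ht).1,
    fun _ ht => (mem_filter.1 ht).2⟩

theorem not_mem_of_nbh {Y : Finset V} {t w : V} (h1 : t ∉ Y) (h2 : t ∉ nbo ω Y)
    (h : w ∈ nbh ω t) : w ∉ Y := fun a =>
  h2 (mem_filter.2 ⟨mem_compl.2 h1, w, (mem_row h1).2 ⟨a, mem_nbh.1 h⟩⟩)

omit [Fintype V] [DecidableEq V] in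
theorem exists_sub (h0 : 0 < p) (h1 : p ≤ 1) {K : ℝ} (hK : 0 ≤ K) (Z : Finset V) :
    ∃ J ⊆ Z, J.card * p ≤ K + 1 ∧ (J = Z ∨ K ≤ J.card * p) := by
  by_cases h : Z.card * p ≤ K + 1
  · exact ⟨Z, Subset.rfl, h, Or.inl rfl⟩
  have a1 : (⌈K / p⌉₊ : ℝ) * p ≤ K + 1 := by
    have := mul_lt_mul_of_pos_right (Nat.ceil_lt_add_one (div_nonneg hK h0.le)) h0
    rw [add_mul, div_mul_cancel₀ _ h0.ne'] at this
    linarith
  obtain ⟨J, a2, a3⟩ := exists_subset_card_eq (s := Z) (n := ⌈K / p⌉₊)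
    (by exact_mod_cast (lt_of_mul_lt_mul_right (a1.trans_lt (not_le.1 h)) h0.le).le)
  exact ⟨J, a2, a3 ▸ a1, Or.inr (a3 ▸ (div_le_iff₀ h0).1 (Nat.le_ceil _))⟩

theorem exists_rich (h0 : 0 < p) (h1 : p ≤ 1) {G : Type*} [AddCommGroup G] [Finite G] (φ : V → G)
    {K₁ K₂ : ℝ} (hK : 0 ≤ K₂) {Q : ℕ} {H : AddSubgroup G} (hQ : Nat.card H ≤ Q)
    (hH : (off φ H).card * p ≤ K₁) : ∃ (H₀ : AddSubgroup G) (J : Finset V), Nat.card H₀ ≤ Q ∧
      (off φ H₀).card * p ≤ K₁ + K₂ * Q ∧ J.card * p ≤ (K₂ + 1) * Q ∧ (∀ w ∈ J, φ w ∈ H₀) ∧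
      ∀ H', ¬H₀ ≤ H' → K₂ ≤ (J ∩ off φ H').card * p := by
  classical
  cases nonempty_fintype G
  obtain ⟨H₀, a1, a2⟩ := Set.exists_min_image {H : AddSubgroup G | Nat.card H ≤ Q}
    (fun H => (off φ H).card * p + K₂ * Nat.card H) (Set.toFinite _) ⟨H, hQ⟩
  choose J j1 j2 j3 using fun h : G => exists_sub h0 h1 hK (univ.filter fun v => φ v = h)
  have q1 : (Nat.card H₀ : ℝ) ≤ Q := by exact_mod_cast a1
  refine ⟨H₀, (H₀ : Set G).toFinset.biUnion J, a1, ?_, ?_, fun w hw => ?_, fun H' h => ?_⟩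
  · have b1 := a2 H hQ
    have b2 : K₂ * Nat.card H ≤ K₂ * Q := by gcongr
    have b3 : 0 ≤ K₂ * Nat.card H₀ := by positivity
    linarith
  · refine (mul_le_mul_of_nonneg_right (Nat.cast_le.2 card_biUnion_le) h0.le).trans ?_
    rw [Nat.cast_sum, sum_mul]
    refine (sum_le_card_nsmul _ _ _ fun h _ => j2 h).trans ?_
    rw [nsmul_eq_mul, mul_comm, Set.toFinset_card, ← Nat.card_eq_fintype_card]
    exact mul_le_mul_of_nonneg_left q1 (by linarith)
  · obtain ⟨h, b1, b2⟩ := mem_biUnion.1 hw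
    rw [(mem_filter.1 (j1 h b2)).2]
    simpa using b1
  · have b1 : Nat.card (H' ⊓ H₀ : AddSubgroup G) < Nat.card H₀ :=
      lt_of_not_ge fun a => h (inf_eq_right.1 (AddSubgroup.eq_of_le_of_card_ge inf_le_right a))
    have b2 := a2 (H' ⊓ H₀) (b1.le.trans a1)
    have b3 : K₂ * (Nat.card (H' ⊓ H₀ : AddSubgroup G) + 1) ≤ K₂ * Nat.card H₀ := by
      gcongr
      exact_mod_cast b1
    have b4 := mass_le h0.le (A := off φ (H' ⊓ H₀)) (B := off φ H₀) (C := off φ H' \ off φ H₀)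
      fun v hv => by by_cases a : φ v ∈ H₀ <;> simp_all
    by_cases hc : ∃ v ∈ off φ H' \ off φ H₀, K₂ ≤ (J (φ v)).card * p
    · obtain ⟨v, c1, c2⟩ := hc
      refine c2.trans (mass_mono h0.le fun w hw => mem_inter.2 ⟨mem_biUnion.2 ⟨_, ?_, hw⟩, ?_⟩)
      · simpa using (mem_sdiff.1 c1).2
      · rw [mem_off, (mem_filter.1 (j1 _ hw)).2]
        exact mem_off.1 (mem_sdiff.1 c1).1
    · refine le_trans (by linarith) (mass_mono h0.le (A := off φ H' \ off φ H₀) fun v hv =>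
        mem_inter.2 ⟨mem_biUnion.2 ⟨φ v, by simpa using (mem_sdiff.1 hv).2, ?_⟩, (mem_sdiff.1 hv).1⟩)
      rw [(j3 _).resolve_right fun a => hc ⟨v, hv, a⟩]
      simp

theorem half {G : Type*} [AddCommGroup G] [Finite G] (f : G →+ G) {H : AddSubgroup G}
    (h : ¬∀ x ∈ H, f x ∈ H) (s : G) : 2 * {x | x ∈ H ∧ f x - s ∈ H}.ncard ≤ Nat.card H := by
  rcases Set.eq_empty_or_nonempty {x | x ∈ H ∧ f x - s ∈ H} with e | ⟨x, hx⟩
  · simp [e]
  have a1 : {x | x ∈ H ∧ f x - s ∈ H}.ncard ≤ Nat.card (H ⊓ H.comap f : AddSubgroup G) :=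
    Set.ncard_le_ncard_of_injOn (t := (H ⊓ H.comap f : AddSubgroup G)) (· - x)
      (fun y hy => AddSubgroup.mem_inf.2 ⟨sub_mem hy.1 hx.1, by simpa using sub_mem hy.2 hx.2⟩)
      (fun _ _ _ _ e => sub_left_injective e)
  obtain ⟨c, hc⟩ := AddSubgroup.card_dvd_of_le (inf_le_left : H ⊓ H.comap f ≤ H)
  have a2 : c ≠ 1 := fun e => h fun y hy => ((AddSubgroup.eq_of_le_of_card_ge
    (inf_le_left : H ⊓ H.comap f ≤ H) (by rw [hc, e, mul_one])).ge hy).2
  have a3 : c ≠ 0 := fun e => (Nat.card_pos (α := H)).ne' (by rw [hc, e, mul_zero])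
  have a4 : 2 ≤ c := by omega
  nlinarith

theorem struct (h0 : 0 < p) (h1 : p ≤ 1 / 2) {G : Type} [AddCommGroup G] [Module ℤ[X] G] [Finite G]
    {φ : V → G} {D T : Finset V} (hX : ∀ v ∉ D, (X : ℤ[X]) • φ v = ∑ w ∈ nbh ω v, φ w)
    (hT : ∀ t ∈ T, φ t = 0) {γ K K₁ K₂ η ε τ : ℝ} {q Q : ℕ} (hε : ε * Fintype.card V ≤ T.card)
    (hq : q < Nat.card G)
    (hp : ∀ G' : Submodule ℤ[X] G, (off φ G'.toAddSubgroup).card * p ≤ K → G' = ⊤)
    (hg : ∀ H H' : AddSubgroup G, H ≤ H' → (∀ h ∈ H, (X : ℤ[X]) • h ∈ H') →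
      (off φ H).card * p ≤ K → (off φ H').card * p ≤ γ)
    (hN : ¬EvN p γ η ω) (hD : (D.card : ℝ) ≤ 3 * η * Fintype.card V)
    (hs : ∀ Y : Finset V, Y.card * p ≤ K → Y.card ≤ η * Fintype.card V)
    (t0 : 0 ≤ τ) (t1 : 16 ^ Q * τ < K₂) (t2 : Real.exp (-(τ / 4)) ≤ 1 / 2 / Q)
    (k1 : K₁ + (K₂ + 1) * Q ≤ K) {H : AddSubgroup G} (hQ : Nat.card H ≤ Q)
    (hH : (off φ H).card * p ≤ K₁) : EvG (Q ^ 2) p (6 * η) ε q ω := by
  classical
  cases nonempty_fintype G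
  have k2 : 0 ≤ K₂ := le_trans (by positivity) t1.le
  have k3 : 0 ≤ K₁ := le_trans (by positivity) hH
  obtain ⟨H₀, J, a1, a2, a3, a4, a5⟩ := exists_rich h0 (by linarith) φ k2 hQ hH
  have a6 : (off φ H₀).card * p ≤ K := by nlinarith [(Nat.cast_nonneg Q : (0 : ℝ) ≤ _)]
  let f : G →+ G := DistribSMul.toAddMonoidHom G (X : ℤ[X])
  let g : H₀ × H₀ →+ G := H₀.subtype.coprod (f.comp H₀.subtype)
  have b1 : H₀ ≤ g.range := fun h hh => ⟨(⟨h, hh⟩, 0), by simp [g]⟩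
  have b2 : ∀ h ∈ H₀, f h ∈ g.range := fun h hh => ⟨(0, ⟨h, hh⟩), by simp [g]⟩
  have b3 : Nat.card g.range ≤ Q ^ 2 := by
    refine (Nat.card_le_card_of_surjective _ g.rangeRestrict_surjective).trans ?_
    rw [Nat.card_prod, sq]
    exact Nat.mul_le_mul a1 a1
  generalize g.range = H₁ at b1 b2 b3
  let r : G → H₁ := fun x => if h : x ∈ H₁ then ⟨x, h⟩ else 0
  have r1 : ∀ x ∈ H₁, (r x : G) = x := fun x hx => by simp [r, hx]
  have c1 : Nat.card (H₀.addSubgroupOf H₁) = Nat.card H₀ :=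
    Nat.card_congr (AddSubgroup.addSubgroupOfEquivOfLe b1).toEquiv
  have c0 : (0 : ℝ) < Nat.card H₀ := by exact_mod_cast Nat.card_pos
  set D' := D ∪ off φ H₀ ∪ nbo ω (off φ H₁) ∪ J with hD'
  have d1 : ∀ t ∉ D', t ∉ D ∧ φ t ∈ H₀ ∧ t ∉ nbo ω (off φ H₁) := fun t ht => by
    simp only [hD', mem_union, not_or, mem_off, not_not] at ht
    tauto
  refine ⟨H₁, inferInstance, inferInstance, H₀.addSubgroupOf H₁, fun x => r (f x), b3, D',
    fun v => r (φ v), ?_, fun x => ?_, fun t ht => ?_, fun t ht => Subtype.ext ?_, ?_⟩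
  · have e1 : (D'.card : ℝ) ≤ D.card + (off φ H₀).card + (nbo ω (off φ H₁)).card + J.card := by
      exact_mod_cast (card_union_le _ _).trans (Nat.add_le_add_right ((card_union_le _ _).trans
        (Nat.add_le_add_right (card_union_le _ _) _)) _)
    linarith [hs _ a6, hs J (by linarith), card_nbo hN (hg _ _ b1 b2 a6)]
  · have e1 : Real.exp (-(τ / 4)) ≤ 1 / 2 / Nat.card H₀ := t2.trans (by gcongr)
    have e2 : 3 / 2 / (Nat.card H₀ : ℝ) = 1 / Nat.card H₀ + 1 / 2 / Nat.card H₀ := by ring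
    rw [c1, e2]
    refine (rP_mono h0.le (by linarith) (B := fun a => ∑ w ∈ a, (r (φ w) : G) = x)
      fun a _ e => by rw [← e, AddSubgroup.val_finsetSum]).trans ?_
    rcases LO h0.le h1 _ (fun w => (r (φ w) : G)) x t0 (L := Nat.card H₀) Nat.card_pos with
      e | ⟨H', -, e3, e4⟩
    · exact e.trans (by gcongr)
    · refine e3.trans (add_le_add ?_ e1)
      have e5 : H₀ ≤ H' := by
        by_contra a
        refine absurd ((a5 H' a).trans ((mass_mono h0.le fun w hw => ?_).trans (e4.trans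
          (mul_le_mul_of_nonneg_right (pow_le_pow_right₀ (by norm_num) a1) t0)))) t1.not_ge
        have e6 := a4 w (mem_inter.1 hw).1
        simp only [mem_filter, AddSubgroup.mem_addSubgroupOf, r1 _ (b1 e6)]
        exact ⟨⟨mem_union_right _ (mem_inter.1 hw).1, e6⟩, mem_off.1 (mem_inter.1 hw).2⟩
      gcongr
      exact AddSubgroup.card_le_of_le e5
  · rw [AddSubgroup.mem_addSubgroupOf, r1 _ (b1 (d1 t ht).2.1)]
    exact (d1 t ht).2.1
  · obtain ⟨e1, e2, e3⟩ := d1 t ht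
    beta_reduce
    rw [AddSubgroup.val_finsetSum, r1 _ (b1 e2), r1 _ (b2 _ e2), sum_congr rfl fun w hw =>
      r1 _ (by simpa using not_mem_of_nbh (by simpa using b1 e2) e3 hw), ← hX t e1]
    rfl
  · rw [c1]
    by_cases hc : ∀ x ∈ H₀, f x ∈ H₀
    · refine Or.inr ⟨?_, T, hε, fun t ht => by simp [hT t ht, r]⟩
      have : H₀ = ⊤ := congrArg Submodule.toAddSubgroup (hp (toSub H₀ hc) a6)
      rw [this, AddSubgroup.card_top]
      exact hq.le
    · refine Or.inl fun s => le_trans (Nat.mul_le_mul_left _ ?_) (half f hc s)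
      refine Set.ncard_le_ncard_of_injOn Subtype.val (fun x hx => ⟨hx.1, ?_⟩)
        Subtype.val_injective.injOn
      have e := hx.2
      rwa [AddSubgroup.mem_addSubgroupOf, AddSubgroup.coe_sub, r1 _ (b2 x hx.1)] at e

end Pool.Agent.P.MP_f57657_co
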